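import Pool.Agent.Work.MP_ad0563_ag.Interface

/-!
The module of Kaehler differentials of a field extension of transcendence degree `n` in
characteristic zero has dimension `n`.
-/

set_option linter.unusedSectionVars false

namespace Pool.Agent.MPad0563

open MvPolynomial

lemma nonempty_basis_of_isTranscendenceBasis {K : Type} [Field K] [Algebra ℂ K] {n : ℕ}
    (x : Fin n → K) (hx : IsTranscendenceBasis ℂ x) :
    Nonempty (Module.Basis (Fin n) K (Ω[K⁄ℂ])) := by
  let S := MvPolynomial (Fin n) ℂ
  let _ : Algebra S K := (aeval x : MvPolynomial (Fin n) ℂ →ₐ[ℂ] K).toRingHom.toAlgebra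
  have hST : IsScalarTower ℂ S K := IsScalarTower.of_algebraMap_eq fun c => by
    show algebraMap ℂ K c = aeval x (C c)
    rw [aeval_C]
  have hinj : Function.Injective (algebraMap S K) := hx.1
  have hfaith : FaithfulSMul S K := (faithfulSMul_iff_algebraMap_injective S K).mpr hinj
  have halg0 : Algebra.IsAlgebraic (Algebra.adjoin ℂ (Set.range x)) K := hx.isAlgebraic
  have halg : Algebra.IsAlgebraic S K := by
    refine Algebra.IsAlgebraic.of_ringHom_of_comp_eq (S := Algebra.adjoin ℂ (Set.range x))
      (B := K) (hx.1.aevalEquiv : S ≃ₐ[ℂ] _) (RingHom.id K) hx.1.aevalEquiv.surjective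
      Function.injective_id ?_
    apply RingHom.ext
    intro p
    exact hx.1.algebraMap_aevalEquiv p
  let F := FractionRing S
  let _ : Algebra F K := FractionRing.liftAlgebra S K
  have hST2 : IsScalarTower S F K := FractionRing.isScalarTower_liftAlgebra S K
  have halg2 : Algebra.IsAlgebraic F K := (IsFractionRing.comap_isAlgebraic_iff (A := S)).mp halg
  have hchar : CharZero F := by
    have : Function.Injective (algebraMap S F) := IsFractionRing.injective S F
    exact charZero_of_injective_algebraMap this
  have hsep : Algebra.IsSeparable F K := inferInstance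
  have h1 : Algebra.FormallyEtale F K := Algebra.FormallyEtale.of_isSeparable F K
  have h2 : Algebra.FormallyEtale S F := Algebra.FormallyEtale.of_isLocalization (nonZeroDivisors S)
  have h3 : Algebra.FormallyEtale S K := Algebra.FormallyEtale.comp S F K
  exact ⟨((KaehlerDifferential.mvPolynomialBasis ℂ (Fin n)).baseChange K).map
    (KaehlerDifferential.tensorKaehlerEquivOfFormallyEtale ℂ S K)⟩

lemma finrank_kaehler {K : Type} [Field K] [Algebra ℂ K] {n : ℕ}
    (hn : Algebra.trdeg ℂ K = n) : Nonempty (Module.Basis (Fin n) K (Ω[K⁄ℂ])) := by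
  obtain ⟨s, hs⟩ := exists_isTranscendenceBasis ℂ K
  have hcard : Cardinal.mk s = n := by
    rw [hs.cardinalMk_eq_trdeg, hn]
  have hfin : Finite s := by
    rw [← Cardinal.lt_aleph0_iff_finite, hcard]
    exact Cardinal.natCast_lt_aleph0
  have : Fintype s := Fintype.ofFinite s
  have e : Fin n ≃ s := by
    have h1 : Fintype.card s = n := by
      rw [Cardinal.mk_fintype] at hcard
      exact_mod_cast hcard
    exact (Fintype.equivFinOfCardEq h1).symm
  exact nonempty_basis_of_isTranscendenceBasis (fun i => (e i : K)) (hs.comp_equiv e)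

/-- If `D a_1, ..., D a_n` span the differentials then their wedge product is not zero. -/
lemma wedge_ne_zero {K : Type} [Field K] [Algebra ℂ K] {n : ℕ}
    (hn : Algebra.trdeg ℂ K = n) (a : Fin n → K)
    (hspan : ⊤ ≤ Submodule.span K (Set.range fun i => KaehlerDifferential.D ℂ K (a i))) :
    wedge a ≠ 0 := by
  obtain ⟨b₀⟩ := finrank_kaehler hn
  have hfr : Module.finrank K (Ω[K⁄ℂ]) = n := by
    rw [Module.finrank_eq_card_basis b₀, Fintype.card_fin]
  have hli : LinearIndependent K fun i => KaehlerDifferential.D ℂ K (a i) :=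
    linearIndependent_of_top_le_span_of_card_eq_finrank hspan (by rw [Fintype.card_fin, hfr])
  let b : Module.Basis (Fin n) K (Ω[K⁄ℂ]) := Module.Basis.mk hli hspan
  intro h0
  have h1 : exteriorPower.alternatingMapLinearEquiv b.det (wedge a) = 1 := by
    unfold wedge
    rw [exteriorPower.alternatingMapLinearEquiv_apply_ιMulti]
    have : (fun i => KaehlerDifferential.D ℂ K (a i)) = b := by
      funext i
      rw [Module.Basis.mk_apply]
    rw [this, Module.Basis.det_self]
  rw [h0, map_zero] at h1
  exact zero_ne_one h1

end Pool.Agent.MPad0563
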