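import Pool.Agent.Work.MP_ad0563_ag.Interface

/-!
Blocks V3, V5: bookkeeping for divisorial valuations.
-/

namespace Pool.Agent.MPad0563

theorem stmt_V3 : Stmt_V3 := by
  intro K _ _ n r V h c ω hc hu
  refine ⟨?_, ?_⟩
  · rintro ⟨c', hc', h1, h2, h3⟩
    have key : (c * c')⁻¹ • c • ω = c'⁻¹ • ω := by
      rw [smul_smul, mul_inv, mul_assoc, mul_comm c'⁻¹ c, ← mul_assoc, inv_mul_cancel₀ hc, one_mul]
    refine ⟨c * c', mul_ne_zero hc hc', by rw [key]; exact h1, ?_, ?_⟩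
    · intro η hη
      obtain ⟨a, ha, rfl⟩ := h2 η hη
      exact ⟨a, ha, by rw [key]⟩
    · rw [one_mul, pow_one] at h3
      rw [mul_pow, ← mul_assoc]
      refine ⟨mul_ne_zero hu.1 (pow_ne_zero _ h3.1), V.mul_mem _ _ hu.2.1 (V.pow_mem h3.2.1 _), ?_⟩
      rw [mul_inv, ← inv_pow]
      exact V.mul_mem _ _ hu.2.2 (V.pow_mem h3.2.2 _)
  · rintro hr ⟨c', hc', h1, h2⟩
    have key : (c * c')⁻¹ • c • ω = c'⁻¹ • ω := by
      rw [smul_smul, mul_inv, mul_assoc, mul_comm c'⁻¹ c, ← mul_assoc, inv_mul_cancel₀ hc, one_mul]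
    refine ⟨c * c', mul_ne_zero hc hc', by rw [key]; exact h1, ?_⟩
    rw [one_mul, pow_one] at h2
    rw [mul_pow, ← mul_assoc]
    refine ⟨V.mul_mem _ _ hu.2.1 (V.pow_mem h2.1 _), fun hcon => h2.2 ?_⟩
    rw [mul_inv, ← inv_pow] at hcon
    have h4 : c'⁻¹ ^ r ∈ V := by
      have := V.mul_mem _ _ hu.2.1 hcon
      rwa [← mul_assoc, mul_inv_cancel₀ hu.1, one_mul] at this
    -- a power is in `V`, so the element is in `V`
    rcases V.mem_or_inv_mem c'⁻¹ with h5 | h5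
    · exact h5
    · rw [inv_inv] at h5
      have h6 : c'⁻¹ = c'⁻¹ ^ r * c' ^ (r - 1) := by
        obtain ⟨k, rfl⟩ := Nat.exists_eq_succ_of_ne_zero hr.ne'
        rw [Nat.succ_sub_one, pow_succ, inv_pow, mul_comm (c' ^ k)⁻¹, mul_assoc,
          inv_mul_cancel₀ (pow_ne_zero _ hc'), mul_one]
      rw [h6]
      exact V.mul_mem _ _ h4 (V.pow_mem h5 _)

theorem stmt_V5 : Stmt_V5 := by
  intro K _ _ A B V h hA z hz
  obtain ⟨a, ha, b, hb, hb0, hbV, rfl⟩ := hA z hz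
  obtain ⟨a₁, ha₁, a₂, ha₂, ha₂0, ha₂V, rfl⟩ := h a ha
  obtain ⟨b₁, hb₁, b₂, hb₂, hb₂0, hb₂V, rfl⟩ := h b hb
  have hb₁0 : b₁ ≠ 0 := fun h0 => hb0 (by rw [h0, zero_div])
  refine ⟨a₁ * b₂, B.mul_mem ha₁ hb₂, a₂ * b₁, B.mul_mem ha₂ hb₁, mul_ne_zero ha₂0 hb₁0, ?_, ?_⟩
  · have h1 : (a₂ * b₁)⁻¹ = a₂⁻¹ * ((b₁ / b₂)⁻¹ * b₂⁻¹) := by
      field_simp
    rw [h1]
    exact V.mul_mem _ _ ha₂V (V.mul_mem _ _ hbV hb₂V)
  · field_simp

end Pool.Agent.MPad0563
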