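import Pool.Agent.Work.MP_ad0563_ag_helper39.V2
import Pool.Agent.Work.MP_ad0563_ag_helper39.V35

/-!
Blocks G2, G3, G4 (smooth charts), given G1, N2, Sym.
-/

set_option linter.unusedSectionVars false

namespace Pool.Agent.MPad0563

variable {K : Type} [Field K] [Algebra ℂ K]

lemma mem_lat_range {E : Type*} [AddCommGroup E] [Module K E] {V : ValuationSubring K} {n : ℕ}
    (f : Fin n → E) (z : E) (hz : z ∈ lat V (Set.range f)) :
    ∃ c : Fin n → K, (∀ i, c i ∈ V) ∧ z = ∑ i, c i • f i := by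
  classical
  unfold lat at hz
  induction hz using AddSubgroup.closure_induction with
  | mem x hx =>
    obtain ⟨a, ha, _, ⟨i, rfl⟩, rfl⟩ := hx
    refine ⟨fun j => if j = i then a else 0, fun j => ?_, ?_⟩
    · dsimp only
      split_ifs
      · exact ha
      · exact V.zero_mem
    · simp
  | zero => exact ⟨fun _ => 0, fun _ => V.zero_mem, by simp⟩
  | add x y _ _ hx hy =>
    obtain ⟨c, hc, rfl⟩ := hx
    obtain ⟨c', hc', rfl⟩ := hy
    refine ⟨fun i => c i + c' i, fun i => V.add_mem _ _ (hc i) (hc' i), ?_⟩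
    rw [← Finset.sum_add_distrib]
    exact Finset.sum_congr rfl fun i _ => (add_smul _ _ _).symm
  | neg x _ hx =>
    obtain ⟨c, hc, rfl⟩ := hx
    refine ⟨fun i => -c i, fun i => V.neg_mem _ (hc i), ?_⟩
    rw [← Finset.sum_neg_distrib]
    exact Finset.sum_congr rfl fun i _ => (neg_smul _ _).symm

/-- Coordinates can be checked on generators. -/
lemma coord_of_gens {V : ValuationSubring K} {n : ℕ} (S : Set K) (hV : ∀ c : ℂ, algebraMap ℂ K c ∈ V)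
    (hSV : ∀ s ∈ S, s ∈ V) (a : Fin n → K)
    (hS : ∀ s ∈ S, dd s ∈ lat V (Set.range fun i => dd (a i))) :
    ∀ u ∈ Algebra.adjoin ℂ S, ∃ c : Fin n → K, (∀ i, c i ∈ V) ∧
      KaehlerDifferential.D ℂ K u = ∑ i, c i • KaehlerDifferential.D ℂ K (a i) := by
  intro u hu
  apply mem_lat_range (V := V) (fun i => dd (a i))
  have key : u ∈ V ∧ dd u ∈ lat V (Set.range fun i => dd (a i)) := by
    induction hu using Algebra.adjoin_induction with
    | mem x hx => exact ⟨hSV x hx, hS x hx⟩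
    | algebraMap c =>
      refine ⟨hV c, ?_⟩
      have : dd (algebraMap ℂ K c) = 0 := Derivation.map_algebraMap _ c
      rw [this]
      exact AddSubgroup.zero_mem _
    | add x y _ _ hx hy =>
      refine ⟨V.add_mem _ _ hx.1 hy.1, ?_⟩
      have : dd (x + y) = dd x + dd y := map_add _ _ _
      rw [this]
      exact AddSubgroup.add_mem _ hx.2 hy.2
    | mul x y _ _ hx hy =>
      refine ⟨V.mul_mem _ _ hx.1 hy.1, ?_⟩
      have : dd (x * y) = x • dd y + y • dd x := Derivation.leibniz _ _ _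
      rw [this]
      exact AddSubgroup.add_mem _ (lat_smul hx.1 hy.2) (lat_smul hy.1 hx.2)
  exact key.2

lemma rel_diff {t x y a b : K} (h : IsDatum t x y a b) :
    x ^ 2 • dd x + y ^ 2 • dd y + (3 * t ^ 8) • dd t = 0 := by
  have h1 : KaehlerDifferential.D ℂ K (x ^ 3 + y ^ 3 + 1 + t ^ 9) = 0 := by
    rw [h.rel, map_zero]
  rw [map_add, map_add, map_add, Derivation.leibniz_pow, Derivation.leibniz_pow,
    Derivation.leibniz_pow, Derivation.map_one_eq_zero, add_zero] at h1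
  simp only [Nat.add_one_sub_one, ← Nat.cast_smul_eq_nsmul K] at h1
  have hchar : CharZero K := charZero_of_injective_algebraMap (algebraMap ℂ K).injective
  have h2 : (3 : K)⁻¹ • (((3 : ℕ) : K) • x ^ 2 • dd x + ((3 : ℕ) : K) • y ^ 2 • dd y +
      ((9 : ℕ) : K) • t ^ 8 • dd t) = 0 := by
    rw [show (((3 : ℕ) : K) • x ^ 2 • dd x + ((3 : ℕ) : K) • y ^ 2 • dd y +
      ((9 : ℕ) : K) • t ^ 8 • dd t) = 0 from h1, smul_zero]
  rw [smul_add, smul_add, smul_smul, smul_smul, smul_smul, smul_smul, smul_smul, smul_smul] at h2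
  have h3 : (3 : K)⁻¹ * ((3 : ℕ) : K) * x ^ 2 = x ^ 2 := by push_cast; field_simp
  have h4 : (3 : K)⁻¹ * ((3 : ℕ) : K) * y ^ 2 = y ^ 2 := by push_cast; field_simp
  have h5 : (3 : K)⁻¹ * ((9 : ℕ) : K) * t ^ 8 = 3 * t ^ 8 := by push_cast; field_simp; norm_num
  rw [h3, h4, h5] at h2
  exact h2

lemma frac_of_adjoin {S : Set K} (h : IntermediateField.adjoin ℂ S = ⊤) :
    ∀ z : K, ∃ u ∈ Algebra.adjoin ℂ S, ∃ v ∈ Algebra.adjoin ℂ S, v ≠ 0 ∧ z = u / v := by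
  intro z
  have hz : z ∈ IntermediateField.adjoin ℂ S := by rw [h]; trivial
  obtain ⟨r, hr, s, hs, rfl⟩ := IntermediateField.mem_adjoin_iff_div.1 hz
  by_cases hs0 : s = 0
  · exact ⟨0, Subalgebra.zero_mem _, 1, Subalgebra.one_mem _, one_ne_zero, by
      rw [hs0, div_zero, zero_div]⟩
  · exact ⟨r, hr, s, hs, hs0, rfl⟩

lemma noeth_adjoin (S : Set K) (hS : S.Finite) : IsNoetherianRing (Algebra.adjoin ℂ S) :=
  isNoetherianRing_of_fg (Subalgebra.fg_def.2 ⟨S, hS, rfl⟩)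

/-- V2 and V3 together. -/
lemma chart_case (htr : Algebra.trdeg ℂ K = 4) (S : Set K) (hS : S.Finite)
    (hcl : IsIntegrallyClosedIn (Algebra.adjoin ℂ S) K)
    (hgen : IntermediateField.adjoin ℂ S = ⊤) (V : ValuationSubring K) (hV : IsDivisorial 4 V)
    (hSV : ∀ z ∈ Algebra.adjoin ℂ S, z ∈ V) (a : Fin 4 → K)
    (ha : ∀ i, a i ∈ Algebra.adjoin ℂ S)
    (hcoord : ∀ s ∈ S, dd s ∈ lat V (Set.range fun i => dd (a i)))
    (c : K) (hc : IsUnitOf V c) (ω : ⋀[K]^4 (Ω[K⁄ℂ])) (hω : ω = c • wedge a) :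
    (IsLocOf V (Algebra.adjoin ℂ S) → OrdZero V 4 1 1 ω) ∧
      (¬ IsLocOf V (Algebra.adjoin ℂ S) → OrdPos V 4 1 1 ω) := by
  have h1 := stmt_V2 K 4 (Algebra.adjoin ℂ S) a V (by norm_num) htr ha hcl (noeth_adjoin S hS)
    (frac_of_adjoin hgen) hV hSV
    (coord_of_gens S hV.const (fun s hs => hSV s (Algebra.subset_adjoin hs)) a hcoord)
  have h2 := stmt_V3 K 4 1 V 1 c (wedge a) hc.1 (by rw [one_mul, pow_one]; exact hc)
  rw [hω]
  exact ⟨fun h => h2.1 (h1.2.1 h), fun h => h2.2 one_pos (h1.2.2 h)⟩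

lemma IsUnitOf.mul {V : ValuationSubring K} {u v : K} (hu : IsUnitOf V u) (hv : IsUnitOf V v) :
    IsUnitOf V (u * v) :=
  ⟨mul_ne_zero hu.1 hv.1, V.mul_mem _ _ hu.2.1 hv.2.1, by
    rw [mul_inv]; exact V.mul_mem _ _ hu.2.2 hv.2.2⟩

lemma IsUnitOf.pow {V : ValuationSubring K} {u : K} (hu : IsUnitOf V u) (n : ℕ) :
    IsUnitOf V (u ^ n) :=
  ⟨pow_ne_zero _ hu.1, V.pow_mem hu.2.1 _, by rw [← inv_pow]; exact V.pow_mem hu.2.2 _⟩

lemma IsUnitOf.neg {V : ValuationSubring K} {u : K} (hu : IsUnitOf V u) : IsUnitOf V (-u) :=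
  ⟨neg_ne_zero.2 hu.1, V.neg_mem _ hu.2.1, by rw [inv_neg]; exact V.neg_mem _ hu.2.2⟩

lemma isUnitOf_const {V : ValuationSubring K} (hc : ∀ c : ℂ, algebraMap ℂ K c ∈ V) (c : ℂ)
    (h0 : c ≠ 0) : IsUnitOf V (algebraMap ℂ K c) :=
  ⟨by rw [Ne, map_eq_zero]; exact h0, hc c, by rw [← map_inv₀]; exact hc _⟩

lemma isUnitOf_three {V : ValuationSubring K} (hc : ∀ c : ℂ, algebraMap ℂ K c ∈ V) :
    IsUnitOf V (3 : K) := by
  have := isUnitOf_const hc 3 (by norm_num)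
  rwa [map_ofNat] at this

lemma exists_unit_of_rel {V : ValuationSubring K} (hc : ∀ c : ℂ, algebraMap ℂ K c ∈ V)
    {x y t : K} (hx : x ∈ V) (hy : y ∈ V) (ht : t ∈ V) (h : x ^ 3 + y ^ 3 + 1 + t ^ 9 = 0) :
    IsUnitOf V y ∨ IsUnitOf V x ∨ IsUnitOf V t := by
  obtain ⟨κ, _, _, ρ, -, hρ⟩ := exists_residue V hc
  by_contra hcon
  push Not at hcon
  obtain ⟨h1, h2, h3⟩ := hcon
  have h1' := (hρ ⟨y, hy⟩).2 h1
  have h2' := (hρ ⟨x, hx⟩).2 h2
  have h3' := (hρ ⟨t, ht⟩).2 h3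
  have h4 : (⟨x, hx⟩ : toSub V hc) ^ 3 + ⟨y, hy⟩ ^ 3 + 1 + ⟨t, ht⟩ ^ 9 = 0 := Subtype.ext h
  have h5 := congrArg ρ h4
  simp only [map_add, map_pow, map_one, map_zero, h1', h2', h3'] at h5
  norm_num at h5

lemma dd_y {t x y a b : K} (h : IsDatum t x y a b) (hy : y ≠ 0) :
    dd y = (-((y ^ 2)⁻¹ * x ^ 2)) • dd x + (-((y ^ 2)⁻¹ * (3 * t ^ 8))) • dd t := by
  have h1 := rel_diff h
  have h2 : y ^ 2 • dd y = -(x ^ 2 • dd x) - (3 * t ^ 8) • dd t := by
    have : y ^ 2 • dd y = (x ^ 2 • dd x + y ^ 2 • dd y + (3 * t ^ 8) • dd t) -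
        x ^ 2 • dd x - (3 * t ^ 8) • dd t := by abel
    rw [this, h1]
    abel
  have h3 : dd y = (y ^ 2)⁻¹ • (y ^ 2 • dd y) := by
    rw [smul_smul, inv_mul_cancel₀ (pow_ne_zero _ hy), one_smul]
  rw [h3, h2, smul_sub, smul_neg, smul_smul, smul_smul, neg_smul, neg_smul, sub_eq_add_neg]

lemma dd_x {t x y a b : K} (h : IsDatum t x y a b) (hx : x ≠ 0) :
    dd x = (-((x ^ 2)⁻¹ * y ^ 2)) • dd y + (-((x ^ 2)⁻¹ * (3 * t ^ 8))) • dd t := by
  have h1 := rel_diff h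
  have h2 : x ^ 2 • dd x = -(y ^ 2 • dd y) - (3 * t ^ 8) • dd t := by
    have : x ^ 2 • dd x = (x ^ 2 • dd x + y ^ 2 • dd y + (3 * t ^ 8) • dd t) -
        y ^ 2 • dd y - (3 * t ^ 8) • dd t := by abel
    rw [this, h1]
    abel
  have h3 : dd x = (x ^ 2)⁻¹ • (x ^ 2 • dd x) := by
    rw [smul_smul, inv_mul_cancel₀ (pow_ne_zero _ hx), one_smul]
  rw [h3, h2, smul_sub, smul_neg, smul_smul, smul_smul, neg_smul, neg_smul, sub_eq_add_neg]

lemma dd_t {t x y a b : K} (h : IsDatum t x y a b) (ht : (3 * t ^ 8 : K) ≠ 0) :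
    dd t = (-((3 * t ^ 8)⁻¹ * x ^ 2)) • dd x + (-((3 * t ^ 8)⁻¹ * y ^ 2)) • dd y := by
  have h1 := rel_diff h
  have h2 : (3 * t ^ 8 : K) • dd t = -(x ^ 2 • dd x) - y ^ 2 • dd y := by
    have : (3 * t ^ 8 : K) • dd t = (x ^ 2 • dd x + y ^ 2 • dd y + (3 * t ^ 8) • dd t) -
        x ^ 2 • dd x - y ^ 2 • dd y := by abel
    rw [this, h1]
    abel
  have h3 : dd t = (3 * t ^ 8 : K)⁻¹ • ((3 * t ^ 8 : K) • dd t) := by
    rw [smul_smul, inv_mul_cancel₀ ht, one_smul]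
  rw [h3, h2, smul_sub, smul_neg, smul_smul, smul_smul, neg_smul, neg_smul, sub_eq_add_neg]

lemma lat_comb {V : ValuationSubring K} {S : Set (Ω[K⁄ℂ])} {u v : Ω[K⁄ℂ]} {c d : K} (hc : c ∈ V)
    (hd : d ∈ V) (hu : u ∈ S) (hv : v ∈ S) : c • u + d • v ∈ lat V S :=
  AddSubgroup.add_mem _ (mem_lat_smul hc hu) (mem_lat_smul hd hv)

theorem stmt_G2 (hN2 : Stmt_N2) (hG1 : Stmt_G1) : Stmt_G2 := by
  intro K _ _ t x y a b h V hV hBV
  obtain ⟨-, -, -, -, -, -, -, hw8, hw9⟩ := hG1 K t x y a b h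
  have hcl := (hN2 K t x y a b h).1
  have hmem : ∀ s ∈ ({t, x, y, a, b} : Set K), s ∈ algT1 t x y a b := fun s hs =>
    Algebra.subset_adjoin hs
  have ht := hmem t (by simp)
  have hx := hmem x (by simp)
  have hy := hmem y (by simp)
  have ha := hmem a (by simp)
  have hb := hmem b (by simp)
  have h3 := isUnitOf_three (K := K) hV.const
  have htV := hBV t ht
  have hxV := hBV x hx
  have hyV := hBV y hy
  have h8V : (3 * t ^ 8 : K) ∈ V := V.mul_mem _ _ h3.2.1 (V.pow_mem htV _)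
  have hfin : ({t, x, y, a, b} : Set K).Finite := Set.toFinite _
  rcases exists_unit_of_rel hV.const hxV hyV htV h.rel with hu | hu | hu
  · -- `y` is a unit
    refine chart_case h.trdeg {t, x, y, a, b} hfin hcl h.gen V hV hBV ![t, x, a, b] ?_ ?_
      (y ^ 2)⁻¹ (hu.pow 2).inv _ rfl
    · intro i; fin_cases i
      exacts [ht, hx, ha, hb]
    · have m0 : dd t ∈ Set.range fun i => dd ((![t, x, a, b] : Fin 4 → K) i) := ⟨0, rfl⟩
      have m1 : dd x ∈ Set.range fun i => dd ((![t, x, a, b] : Fin 4 → K) i) := ⟨1, rfl⟩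
      have m2 : dd a ∈ Set.range fun i => dd ((![t, x, a, b] : Fin 4 → K) i) := ⟨2, rfl⟩
      have m3 : dd b ∈ Set.range fun i => dd ((![t, x, a, b] : Fin 4 → K) i) := ⟨3, rfl⟩
      rintro s (rfl | rfl | rfl | rfl | rfl)
      · exact mem_lat m0
      · exact mem_lat m1
      · rw [dd_y h hu.1]
        exact lat_comb (V.neg_mem _ (V.mul_mem _ _ (hu.pow 2).2.2 (V.pow_mem hxV _)))
          (V.neg_mem _ (V.mul_mem _ _ (hu.pow 2).2.2 h8V)) m1 m0
      · exact mem_lat m2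
      · exact mem_lat m3
  · -- `x` is a unit
    refine chart_case h.trdeg {t, x, y, a, b} hfin hcl h.gen V hV hBV ![t, y, a, b] ?_ ?_
      (-(x ^ 2)⁻¹) (hu.pow 2).inv.neg _ ?_
    · intro i; fin_cases i
      exacts [ht, hy, ha, hb]
    · have m0 : dd t ∈ Set.range fun i => dd ((![t, y, a, b] : Fin 4 → K) i) := ⟨0, rfl⟩
      have m1 : dd y ∈ Set.range fun i => dd ((![t, y, a, b] : Fin 4 → K) i) := ⟨1, rfl⟩
      have m2 : dd a ∈ Set.range fun i => dd ((![t, y, a, b] : Fin 4 → K) i) := ⟨2, rfl⟩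
      have m3 : dd b ∈ Set.range fun i => dd ((![t, y, a, b] : Fin 4 → K) i) := ⟨3, rfl⟩
      rintro s (rfl | rfl | rfl | rfl | rfl)
      · exact mem_lat m0
      · rw [dd_x h hu.1]
        exact lat_comb (V.neg_mem _ (V.mul_mem _ _ (hu.pow 2).2.2 (V.pow_mem hyV _)))
          (V.neg_mem _ (V.mul_mem _ _ (hu.pow 2).2.2 h8V)) m1 m0
      · exact mem_lat m1
      · exact mem_lat m2
      · exact mem_lat m3
    · rw [hw8, smul_smul]
      have h1 : -(x ^ 2)⁻¹ * -(x ^ 2) = 1 := by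
        rw [neg_mul_neg, inv_mul_cancel₀ (pow_ne_zero _ hu.1)]
      rw [h1, one_smul]
  · -- `t` is a unit
    have hu8 : IsUnitOf V (3 * t ^ 8) := h3.mul (hu.pow 8)
    refine chart_case h.trdeg {t, x, y, a, b} hfin hcl h.gen V hV hBV ![x, y, a, b] ?_ ?_
      (3 * t ^ 8)⁻¹ hu8.inv _ ?_
    · intro i; fin_cases i
      exacts [hx, hy, ha, hb]
    · have m0 : dd x ∈ Set.range fun i => dd ((![x, y, a, b] : Fin 4 → K) i) := ⟨0, rfl⟩
      have m1 : dd y ∈ Set.range fun i => dd ((![x, y, a, b] : Fin 4 → K) i) := ⟨1, rfl⟩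
      have m2 : dd a ∈ Set.range fun i => dd ((![x, y, a, b] : Fin 4 → K) i) := ⟨2, rfl⟩
      have m3 : dd b ∈ Set.range fun i => dd ((![x, y, a, b] : Fin 4 → K) i) := ⟨3, rfl⟩
      rintro s (rfl | rfl | rfl | rfl | rfl)
      · rw [dd_t h hu8.1]
        exact lat_comb (V.neg_mem _ (V.mul_mem _ _ hu8.2.2 (V.pow_mem hxV _)))
          (V.neg_mem _ (V.mul_mem _ _ hu8.2.2 (V.pow_mem hyV _))) m0 m1
      · exact mem_lat m0
      · exact mem_lat m1
      · exact mem_lat m2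
      · exact mem_lat m3
    · rw [hw9, smul_smul, inv_mul_cancel₀ hu8.1, one_smul]

end Pool.Agent.MPad0563
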