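import Pool.Agent.Work.MP_ad0563_ag_helper39.G2

/-!
Blocks G3, G4 (smooth charts), given G1, N2, Sym.
-/

set_option linter.unusedSectionVars false

namespace Pool.Agent.MPad0563

variable {K : Type} [Field K] [Algebra ℂ K]

/-- Change of the second coordinate. -/
lemma wedge_second {t u z a b : K} {α β : K} (h : dd u = α • dd t + β • dd z) :
    wedge ![t, u, a, b] = β • wedge ![t, z, a, b] := by
  let g := exteriorPower.ιMulti K 4 (M := Ω[K⁄ℂ])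
  have h1 : ∀ w : K, wedge ![t, w, a, b] = g ![dd t, dd w, dd a, dd b] := by
    intro w
    unfold wedge
    congr 1
    funext i
    fin_cases i <;> rfl
  have h2 : ∀ e : Ω[K⁄ℂ], (![dd t, e, dd a, dd b] : Fin 4 → Ω[K⁄ℂ]) =
      Function.update ![dd t, dd z, dd a, dd b] 1 e := by
    intro e
    funext i
    fin_cases i <;> rfl
  rw [h1, h1, h, h2, AlternatingMap.map_update_add, AlternatingMap.map_update_smul,
    AlternatingMap.map_update_smul, ← h2, ← h2]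
  have h3 : g ![dd t, dd t, dd a, dd b] = 0 :=
    AlternatingMap.map_eq_zero_of_eq _ _ (i := 0) (j := 1) rfl (by decide)
  rw [h3, smul_zero, zero_add]

lemma datum_ne_zero (hSym : Stmt_Sym) {t x y a b : K} (h : IsDatum t x y a b) :
    t ≠ 0 ∧ x ≠ 0 ∧ y ≠ 0 ∧ a ≠ 0 ∧ b ≠ 0 := by
  obtain ⟨-, -, -, -, h1, h2⟩ := hSym K t x y a b h
  exact ⟨h1.ne_zero 0, h1.ne_zero 1, h2.ne_zero 1, h1.ne_zero 2, h1.ne_zero 3⟩

lemma adjoin_top_of {S : Set K} {t x y a b : K} (h : IsDatum t x y a b)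
    (hS : ∀ s ∈ ({t, x, y, a, b} : Set K), s ∈ IntermediateField.adjoin ℂ S) :
    IntermediateField.adjoin ℂ S = ⊤ := by
  rw [eq_top_iff, ← h.gen]
  exact IntermediateField.adjoin_le_iff.2 hS

lemma rel_diff2 {t x y a b : K} (h : IsDatum t x y a b) (hx : x ≠ 0) :
    (y / x) ^ 2 • dd (y / x) + (x⁻¹ ^ 2 * (1 + t ^ 9)) • dd x⁻¹ +
      (3 * x⁻¹ ^ 3 * t ^ 8) • dd t = 0 := by
  have h0 : (y / x) ^ 3 + 1 + x⁻¹ ^ 3 * (1 + t ^ 9) = 0 := by
    have := h.rel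
    field_simp
    linear_combination this
  have h1 : KaehlerDifferential.D ℂ K ((y / x) ^ 3 + 1 + x⁻¹ ^ 3 * (1 + t ^ 9)) = 0 := by
    rw [h0, map_zero]
  rw [map_add, map_add, Derivation.leibniz, Derivation.leibniz_pow, Derivation.leibniz_pow,
    map_add, Derivation.leibniz_pow,
    Derivation.map_one_eq_zero, add_zero, zero_add] at h1
  simp only [Nat.add_one_sub_one, ← Nat.cast_smul_eq_nsmul K] at h1
  have hchar : CharZero K := charZero_of_injective_algebraMap (algebraMap ℂ K).injective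
  have h2 : (3 : K)⁻¹ • (((3 : ℕ) : K) • (y / x) ^ 2 • dd (y / x) + (x⁻¹ ^ 3 •
      ((9 : ℕ) : K) • t ^ 8 • dd t + (1 + t ^ 9) • ((3 : ℕ) : K) • x⁻¹ ^ 2 • dd x⁻¹)) = 0 := by
    rw [show (((3 : ℕ) : K) • (y / x) ^ 2 • dd (y / x) + (x⁻¹ ^ 3 •
      ((9 : ℕ) : K) • t ^ 8 • dd t + (1 + t ^ 9) • ((3 : ℕ) : K) • x⁻¹ ^ 2 • dd x⁻¹)) = 0
      from h1, smul_zero]
  simp only [smul_add, smul_smul] at h2
  have h3 : (3 : K)⁻¹ * (((3 : ℕ) : K) * (y / x) ^ 2) = (y / x) ^ 2 := by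
    push_cast
    rw [inv_mul_cancel_left₀ (by norm_num)]
  have h4 : (3 : K)⁻¹ * (x⁻¹ ^ 3 * (((9 : ℕ) : K) * t ^ 8)) = 3 * x⁻¹ ^ 3 * t ^ 8 := by
    push_cast
    rw [show x⁻¹ ^ 3 * (9 * t ^ 8) = 3 * (3 * x⁻¹ ^ 3 * t ^ 8) by ring,
      inv_mul_cancel_left₀ (by norm_num)]
  have h5 : (3 : K)⁻¹ * ((1 + t ^ 9) * (((3 : ℕ) : K) * x⁻¹ ^ 2)) = x⁻¹ ^ 2 * (1 + t ^ 9) := by
    push_cast
    rw [show (1 + t ^ 9) * (3 * x⁻¹ ^ 2) = 3 * (x⁻¹ ^ 2 * (1 + t ^ 9)) by ring,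
      inv_mul_cancel_left₀ (by norm_num)]
  rw [h3, h4, h5] at h2
  rw [add_assoc, add_comm ((x⁻¹ ^ 2 * (1 + t ^ 9)) • dd x⁻¹)]
  exact h2

/-- Solve a three-term relation for the first term. -/
lemma solve_first {E : Type*} [AddCommGroup E] [Module K E] {p q r : K} {u v w : E} (hp : p ≠ 0)
    (h : p • u + q • v + r • w = 0) : u = (-(p⁻¹ * q)) • v + (-(p⁻¹ * r)) • w := by
  have h2 : p • u = -(q • v) - r • w := by
    have : p • u = (p • u + q • v + r • w) - q • v - r • w := by abel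
    rw [this, h]
    abel
  have h3 : u = p⁻¹ • (p • u) := by rw [smul_smul, inv_mul_cancel₀ hp, one_smul]
  rw [h3, h2, smul_sub, smul_neg, smul_smul, smul_smul, neg_smul, neg_smul, sub_eq_add_neg]

lemma isUnitOf_of_mul {V : ValuationSubring K} {u v : K} (hu : u ∈ V) (hv : v ∈ V)
    (h : IsUnitOf V (u * v)) : IsUnitOf V u ∧ IsUnitOf V v := by
  have hu0 : u ≠ 0 := left_ne_zero_of_mul h.1
  have hv0 : v ≠ 0 := right_ne_zero_of_mul h.1
  refine ⟨⟨hu0, hu, ?_⟩, ⟨hv0, hv, ?_⟩⟩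
  · have : u⁻¹ = v * (u * v)⁻¹ := by field_simp
    rw [this]
    exact V.mul_mem _ _ hv h.2.2
  · have : v⁻¹ = u * (u * v)⁻¹ := by field_simp
    rw [this]
    exact V.mul_mem _ _ hu h.2.2

/-- If `u ^ 3 + 1 + w = 0` in `V` then `u` or `w` is a unit. -/
lemma unit_or_of_cube {V : ValuationSubring K} (hc : ∀ c : ℂ, algebraMap ℂ K c ∈ V)
    {u w : K} (hu : u ∈ V) (hw : w ∈ V) (h : u ^ 3 + 1 + w = 0) :
    IsUnitOf V u ∨ IsUnitOf V w := by
  obtain ⟨κ, _, _, ρ, -, hρ⟩ := exists_residue V hc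
  by_contra hcon
  push Not at hcon
  obtain ⟨h1, h2⟩ := hcon
  have h1' := (hρ ⟨u, hu⟩).2 h1
  have h2' := (hρ ⟨w, hw⟩).2 h2
  have h4 : (⟨u, hu⟩ : toSub V hc) ^ 3 + 1 + ⟨w, hw⟩ = 0 := Subtype.ext h
  have h5 := congrArg ρ h4
  simp only [map_add, map_pow, map_one, map_zero, h1', h2'] at h5
  norm_num at h5

lemma gen2 {t x y a b : K} (h : IsDatum t x y a b) (hx : x ≠ 0) :
    IntermediateField.adjoin ℂ {t, x⁻¹, y / x, a, b} = ⊤ := by
  apply adjoin_top_of h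
  have hm : ∀ s ∈ ({t, x⁻¹, y / x, a, b} : Set K),
      s ∈ IntermediateField.adjoin ℂ ({t, x⁻¹, y / x, a, b} : Set K) := fun s hs =>
    IntermediateField.subset_adjoin ℂ _ hs
  have hxm : x ∈ IntermediateField.adjoin ℂ ({t, x⁻¹, y / x, a, b} : Set K) := by
    have := IntermediateField.inv_mem _ (hm x⁻¹ (by simp))
    rwa [inv_inv] at this
  rintro s (rfl | rfl | rfl | rfl | rfl)
  · exact hm _ (by simp)
  · exact hxm
  · have := IntermediateField.mul_mem _ (hm (s / x) (by simp)) hxm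
    rwa [div_mul_cancel₀ _ hx] at this
  · exact hm _ (by simp)
  · exact hm _ (by simp)

theorem stmt_G3 (hN2 : Stmt_N2) (hG1 : Stmt_G1) (hSym : Stmt_Sym) : Stmt_G3 := by
  intro K _ _ t x y a b h V hV hBV
  obtain ⟨-, -, -, -, -, -, hw7, hw8, hw9⟩ := hG1 K t x y a b h
  obtain ⟨-, hcl, -⟩ := hN2 K t x y a b h
  obtain ⟨ht0, hx0, hy0, ha0, hb0⟩ := datum_ne_zero hSym h
  have hmem : ∀ s ∈ ({t, x⁻¹, y / x, a, b} : Set K), s ∈ algT2 t x y a b := fun s hs =>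
    Algebra.subset_adjoin hs
  have ht := hmem t (by simp)
  have hz := hmem x⁻¹ (by simp)
  have hη := hmem (y / x) (by simp)
  have ha := hmem a (by simp)
  have hb := hmem b (by simp)
  have h3 := isUnitOf_three (K := K) hV.const
  have htV := hBV t ht
  have hzV := hBV _ hz
  have hηV := hBV _ hη
  have hfin : ({t, x⁻¹, y / x, a, b} : Set K).Finite := Set.toFinite _
  have hrel : (y / x) ^ 3 + 1 + x⁻¹ ^ 3 * (1 + t ^ 9) = 0 := by
    have := h.rel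
    field_simp
    linear_combination this
  have h1V : (1 + t ^ 9 : K) ∈ V := V.add_mem _ _ V.one_mem (V.pow_mem htV _)
  have hwV : (x⁻¹ ^ 3 * (1 + t ^ 9) : K) ∈ V := V.mul_mem _ _ (V.pow_mem hzV _) h1V
  have h8V : (3 * x⁻¹ ^ 3 * t ^ 8 : K) ∈ V :=
    V.mul_mem _ _ (V.mul_mem _ _ h3.2.1 (V.pow_mem hzV _)) (V.pow_mem htV _)
  have h9V : (x⁻¹ ^ 2 * (1 + t ^ 9) : K) ∈ V := V.mul_mem _ _ (V.pow_mem hzV _) h1V
  have hd := rel_diff2 h hx0
  rcases unit_or_of_cube hV.const hηV hwV hrel with hu | hu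
  · -- `y / x` is a unit
    refine chart_case h.trdeg {t, x⁻¹, y / x, a, b} hfin hcl (gen2 h hx0) V hV hBV
      ![t, x⁻¹, a, b] ?_ ?_ (-((y / x) ^ 2)⁻¹) (hu.pow 2).inv.neg _ ?_
    · intro i; fin_cases i
      exacts [ht, hz, ha, hb]
    · have m0 : dd t ∈ Set.range fun i => dd ((![t, x⁻¹, a, b] : Fin 4 → K) i) := ⟨0, rfl⟩
      have m1 : dd x⁻¹ ∈ Set.range fun i => dd ((![t, x⁻¹, a, b] : Fin 4 → K) i) := ⟨1, rfl⟩
      have m2 : dd a ∈ Set.range fun i => dd ((![t, x⁻¹, a, b] : Fin 4 → K) i) := ⟨2, rfl⟩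
      have m3 : dd b ∈ Set.range fun i => dd ((![t, x⁻¹, a, b] : Fin 4 → K) i) := ⟨3, rfl⟩
      rintro s (rfl | rfl | rfl | rfl | rfl)
      · exact mem_lat m0
      · exact mem_lat m1
      · rw [solve_first (hu.pow 2).1 hd]
        exact lat_comb (V.neg_mem _ (V.mul_mem _ _ (hu.pow 2).2.2 h9V))
          (V.neg_mem _ (V.mul_mem _ _ (hu.pow 2).2.2 h8V)) m1 m0
      · exact mem_lat m2
      · exact mem_lat m3
    · rw [hw7, smul_smul, neg_mul_neg, inv_mul_cancel₀ (hu.pow 2).1, one_smul]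
  · -- `x⁻¹ ^ 3 * (1 + t ^ 9)` is a unit
    obtain ⟨hz3, h19⟩ := isUnitOf_of_mul (V.pow_mem hzV 3) h1V hu
    have hzu : IsUnitOf V x⁻¹ := by
      have h1 : IsUnitOf V (x⁻¹ ^ 2 * x⁻¹) := by rw [← pow_succ]; exact hz3
      exact (isUnitOf_of_mul (V.pow_mem hzV 2) hzV h1).2
    have hcu : IsUnitOf V (x⁻¹ ^ 2 * (1 + t ^ 9)) := (hzu.pow 2).mul h19
    have hd' : (x⁻¹ ^ 2 * (1 + t ^ 9)) • dd x⁻¹ + (3 * x⁻¹ ^ 3 * t ^ 8) • dd t +
        (y / x) ^ 2 • dd (y / x) = 0 := by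
      rw [← hd]; abel
    have hdz := solve_first hcu.1 hd'
    refine chart_case h.trdeg {t, x⁻¹, y / x, a, b} hfin hcl (gen2 h hx0) V hV hBV
      ![t, y / x, a, b] ?_ ?_ (x⁻¹ ^ 2 * (1 + t ^ 9))⁻¹ hcu.inv _ ?_
    · intro i; fin_cases i
      exacts [ht, hη, ha, hb]
    · have m0 : dd t ∈ Set.range fun i => dd ((![t, y / x, a, b] : Fin 4 → K) i) := ⟨0, rfl⟩
      have m1 : dd (y / x) ∈ Set.range fun i => dd ((![t, y / x, a, b] : Fin 4 → K) i) := ⟨1, rfl⟩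
      have m2 : dd a ∈ Set.range fun i => dd ((![t, y / x, a, b] : Fin 4 → K) i) := ⟨2, rfl⟩
      have m3 : dd b ∈ Set.range fun i => dd ((![t, y / x, a, b] : Fin 4 → K) i) := ⟨3, rfl⟩
      rintro s (rfl | rfl | rfl | rfl | rfl)
      · exact mem_lat m0
      · rw [hdz]
        exact lat_comb (V.neg_mem _ (V.mul_mem _ _ hcu.2.2 h8V))
          (V.neg_mem _ (V.mul_mem _ _ hcu.2.2 (V.pow_mem hηV _))) m0 m1
      · exact mem_lat m1
      · exact mem_lat m2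
      · exact mem_lat m3
    · -- `omegaY = c • wedge ![t, y / x, a, b]`
      have hy2 : (y / x) ^ 2 ≠ 0 := pow_ne_zero _ (div_ne_zero hy0 hx0)
      have hd'' : (y / x) ^ 2 • dd (y / x) + (3 * x⁻¹ ^ 3 * t ^ 8) • dd t +
          (x⁻¹ ^ 2 * (1 + t ^ 9)) • dd x⁻¹ = 0 := by
        rw [← hd]; abel
      have e1 := wedge_second (a := a) (b := b) (solve_first hy2 hd'')
      rw [e1, hw7, smul_smul, smul_smul]
      have h1 : (x⁻¹ ^ 2 * (1 + t ^ 9))⁻¹ * -(((y / x) ^ 2)⁻¹ * (x⁻¹ ^ 2 * (1 + t ^ 9))) *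
          -(y / x) ^ 2 = 1 := by
        have := hcu.1
        generalize (x⁻¹ ^ 2 * (1 + t ^ 9)) = p at *
        generalize ((y / x) ^ 2) = q at *
        field_simp
      rw [h1, one_smul]

end Pool.Agent.MPad0563
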