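import Pool.Agent.Work.MP_ad0563_ag.Interface

/-!
Block V1 (log lemma), and lattices over a valuation ring.
-/

set_option linter.unusedSectionVars false

namespace Pool.Agent.MPad0563

open scoped BigOperators

section lat

variable {K : Type*} [Field K] (V : ValuationSubring K) {E F : Type*} [AddCommGroup E] [Module K E]
  [AddCommGroup F] [Module K F]

/-- The `V`-lattice spanned by `S`. -/
def lat (S : Set E) : AddSubgroup E := AddSubgroup.closure {z | ∃ a ∈ V, ∃ s ∈ S, z = a • s}

variable {V}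

lemma mem_lat_smul {S : Set E} {a : K} {s : E} (ha : a ∈ V) (hs : s ∈ S) : a • s ∈ lat V S :=
  AddSubgroup.subset_closure ⟨a, ha, s, hs, rfl⟩

lemma mem_lat {S : Set E} {s : E} (hs : s ∈ S) : s ∈ lat V S := by
  have := mem_lat_smul (V := V) V.one_mem hs
  rwa [one_smul] at this

lemma lat_smul {S : Set E} {a : K} {z : E} (ha : a ∈ V) (hz : z ∈ lat V S) : a • z ∈ lat V S := by
  unfold lat at hz ⊢
  induction hz using AddSubgroup.closure_induction with
  | mem x hx =>
    obtain ⟨b, hb, s, hs, rfl⟩ := hx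
    rw [smul_smul]
    exact AddSubgroup.subset_closure ⟨_, V.mul_mem _ _ ha hb, s, hs, rfl⟩
  | zero => rw [smul_zero]; exact AddSubgroup.zero_mem _
  | add x y _ _ hx hy => rw [smul_add]; exact AddSubgroup.add_mem _ hx hy
  | neg x _ hx => rw [smul_neg]; exact AddSubgroup.neg_mem _ hx

lemma lat_le {S : Set E} {N : AddSubgroup E} (hN : ∀ a ∈ V, ∀ z ∈ N, a • z ∈ N)
    (hS : ∀ s ∈ S, s ∈ N) : lat V S ≤ N := by
  unfold lat
  rw [AddSubgroup.closure_le]
  rintro _ ⟨a, ha, s, hs, rfl⟩
  exact hN a ha s (hS s hs)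

lemma lat_mono {S T : Set E} (h : ∀ s ∈ S, s ∈ lat V T) : lat V S ≤ lat V T :=
  lat_le (fun _ ha _ hz => lat_smul ha hz) h

/-- A multilinear map sends lattices to lattices. -/
lemma multi_mem {n : ℕ} (g : MultilinearMap K (fun _ : Fin n => E) F) (S : Set E)
    (N : AddSubgroup F) (hN : ∀ a ∈ V, ∀ z ∈ N, a • z ∈ N)
    (h : ∀ x : Fin n → E, (∀ i, x i ∈ S) → g x ∈ N) (x : Fin n → E)
    (hx : ∀ i, x i ∈ lat V S) : g x ∈ N := by
  classical
  have key : ∀ s : Finset (Fin n), ∀ x : Fin n → E, (∀ i, x i ∈ lat V S) →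
      (∀ i, i ∉ s → x i ∈ S) → g x ∈ N := by
    intro s
    induction s using Finset.induction_on with
    | empty => intro x _ hx; exact h x fun i => hx i (Finset.notMem_empty i)
    | insert j s hj ih =>
      intro x hx hxs
      have hupd : ∀ y ∈ lat V S, g (Function.update x j y) ∈ N := by
        intro y hy
        unfold lat at hy
        induction hy using AddSubgroup.closure_induction with
        | mem z hz =>
          obtain ⟨a, ha, s0, hs0, rfl⟩ := hz
          rw [g.map_update_smul]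
          apply hN a ha
          apply ih
          · intro i
            by_cases hi : i = j
            · subst hi; rw [Function.update_self]; exact mem_lat hs0
            · rw [Function.update_of_ne hi]; exact hx i
          · intro i hi
            by_cases hij : i = j
            · subst hij; rw [Function.update_self]; exact hs0
            · rw [Function.update_of_ne hij]
              apply hxs
              rw [Finset.mem_insert]
              rintro (h1 | h1)
              · exact hij h1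
              · exact hi h1
        | zero =>
          rw [g.map_update_zero]
          exact N.zero_mem
        | add y z _ _ hy hz =>
          rw [g.map_update_add]
          exact N.add_mem hy hz
        | neg y _ hy =>
          rw [g.map_update_neg]
          exact N.neg_mem hy
      have := hupd (x j) (hx j)
      rwa [Function.update_eq_self] at this
  exact key Finset.univ x hx fun i hi => absurd (Finset.mem_univ i) hi

end lat

section

variable {K : Type} [Field K] [Algebra ℂ K] {V : ValuationSubring K} {n : ℕ}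

/-- The differential. -/
noncomputable abbrev dd (u : K) : Ω[K⁄ℂ] := KaehlerDifferential.D ℂ K u

lemma regForms_eq (V : ValuationSubring K) (n : ℕ) :
    regForms V n = lat V {ω | ∃ u : Fin n → K, (∀ i, u i ∈ V) ∧ ω = wedge u} := by
  unfold regForms lat
  congr 1
  ext ω
  constructor
  · rintro ⟨a, u, ha, hu, rfl⟩
    exact ⟨a, ha, _, ⟨u, hu, rfl⟩, rfl⟩
  · rintro ⟨a, ha, _, ⟨u, hu, rfl⟩, rfl⟩
    exact ⟨a, u, ha, hu, rfl⟩

lemma regForms_smul {a : K} {ω : ⋀[K]^n (Ω[K⁄ℂ])} (ha : a ∈ V) (h : ω ∈ regForms V n) :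
    a • ω ∈ regForms V n := by
  rw [regForms_eq] at h ⊢
  exact lat_smul ha h

lemma wedge_mem_regForms {u : Fin n → K} (hu : ∀ i, u i ∈ V) : wedge u ∈ regForms V n := by
  rw [regForms_eq]
  exact mem_lat ⟨u, hu, rfl⟩

/-- Wedges of elements of the lattice of differentials. -/
lemma ιMulti_mem_regForms (x : Fin n → Ω[K⁄ℂ]) (hx : ∀ i, x i ∈ lat V (dd '' (V : Set K))) :
    exteriorPower.ιMulti K n x ∈ regForms V n := by
  apply multi_mem (exteriorPower.ιMulti K n (M := Ω[K⁄ℂ])).toMultilinearMap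
    (dd '' (V : Set K)) (regForms V n) (fun a ha z hz => regForms_smul ha hz) _ x hx
  intro y hy
  choose u hu1 hu2 using hy
  have : y = fun i => KaehlerDifferential.D ℂ K (u i) := by
    funext i
    exact (hu2 i).symm
  rw [this]
  exact wedge_mem_regForms hu1

lemma IsUnitOf.inv {v : K} (h : IsUnitOf V v) : IsUnitOf V v⁻¹ :=
  ⟨inv_ne_zero h.1, h.2.2, by rw [inv_inv]; exact h.2.1⟩

lemma IsSmallOf.ne_zero {v : K} (h : IsSmallOf V v) : v ≠ 0 := by
  rintro rfl
  apply h.2
  rw [inv_zero]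
  exact V.zero_mem

lemma exists_unif (hV : IsDiscreteValuationRing V) : ∃ π₀ : K, IsSmallOf V π₀ ∧
    (∀ x ∈ V, x ≠ 0 → ∃ (m : ℕ) (v : K), IsUnitOf V v ∧ x = v * π₀ ^ m) ∧
    ∀ π : K, IsSmallOf V π → π * π₀⁻¹ ∈ V := by
  obtain ⟨ϖ, hϖ⟩ := IsDiscreteValuationRing.exists_irreducible V
  have hunit : ∀ w : Vˣ, IsUnitOf V ((w : V) : K) := by
    intro w
    have h1 : ((w : V) : K) * (((w⁻¹ : Vˣ) : V) : K) = 1 := by
      rw [← V.coe_mul, Units.mul_inv]; rfl
    refine ⟨left_ne_zero_of_mul_eq_one h1, (w : V).2, ?_⟩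
    rw [inv_eq_of_mul_eq_one_right h1]
    exact ((w⁻¹ : Vˣ) : V).2
  have hϖ0 : (ϖ : K) ≠ 0 := by
    intro h
    exact hϖ.ne_zero (Subtype.ext h)
  have hsmall : IsSmallOf V (ϖ : K) := by
    refine ⟨ϖ.2, fun hcon => hϖ.not_isUnit ?_⟩
    apply IsUnit.of_mul_eq_one (⟨(ϖ : K)⁻¹, hcon⟩ : V)
    apply Subtype.ext
    exact mul_inv_cancel₀ hϖ0
  have hfac : ∀ x ∈ V, x ≠ 0 → ∃ (m : ℕ) (v : K), IsUnitOf V v ∧ x = v * (ϖ : K) ^ m := by
    intro x hx hx0
    obtain ⟨m, w, hw⟩ := IsDiscreteValuationRing.eq_unit_mul_pow_irreducible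
      (x := (⟨x, hx⟩ : V)) (fun h => hx0 (congrArg Subtype.val h)) hϖ
    refine ⟨m, ((w : V) : K), hunit w, ?_⟩
    have := congrArg Subtype.val hw
    simpa using this
  refine ⟨ϖ, hsmall, hfac, ?_⟩
  intro π hπ
  obtain ⟨m, v, hv, rfl⟩ := hfac π hπ.1 hπ.ne_zero
  rcases m with _ | m
  · exfalso
    apply hπ.2
    rw [pow_zero, mul_one]
    exact hv.2.2
  · rw [pow_succ, mul_assoc, mul_assoc, mul_inv_cancel₀ hϖ0, mul_one]
    exact V.mul_mem _ _ hv.2.1 (V.pow_mem ϖ.2 _)

lemma natCast_mem (V : ValuationSubring K) (m : ℕ) : (m : K) ∈ V := by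
  induction m with
  | zero => rw [Nat.cast_zero]; exact V.zero_mem
  | succ m ih => rw [Nat.cast_succ]; exact V.add_mem _ _ ih V.one_mem

/-- Logarithmic differentials. -/
lemma log_diff {π₀ : K} (hπ₀ : π₀ ≠ 0)
    (hfac : ∀ x ∈ V, x ≠ 0 → ∃ (m : ℕ) (v : K), IsUnitOf V v ∧ x = v * π₀ ^ m)
    (u : K) (hu : u ≠ 0) : ∃ k ∈ V, ∃ b ∈ V, ∃ v ∈ V,
      u⁻¹ • dd u = (k * π₀⁻¹) • dd π₀ + b • dd v := by
  have key : ∀ x ∈ V, x ≠ 0 → ∃ k ∈ V, ∃ b ∈ V, ∃ v ∈ V,
      x⁻¹ • dd x = (k * π₀⁻¹) • dd π₀ + b • dd v := by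
    intro x hx hx0
    obtain ⟨m, v, hv, rfl⟩ := hfac x hx hx0
    refine ⟨m, natCast_mem V m, v⁻¹, hv.2.2, v, hv.2.1, ?_⟩
    show (v * π₀ ^ m)⁻¹ • KaehlerDifferential.D ℂ K (v * π₀ ^ m) = _
    rw [Derivation.leibniz, Derivation.leibniz_pow, smul_add, smul_smul, smul_smul]
    congr 1
    · rcases m with _ | m
      · simp
      · rw [← Nat.cast_smul_eq_nsmul K, smul_smul, smul_smul]
        congr 1
        rw [Nat.add_sub_cancel]
        have := hv.1
        field_simp
        ring
    · congr 1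
      have := hv.1
      field_simp
  rcases V.mem_or_inv_mem u with h | h
  · exact key u h hu
  · obtain ⟨k, hk, b, hb, v, hv, h1⟩ := key u⁻¹ h (inv_ne_zero hu)
    refine ⟨-k, V.neg_mem _ hk, -b, V.neg_mem _ hb, v, hv, ?_⟩
    have h2 : u⁻¹ • dd u = - ((u⁻¹)⁻¹ • dd u⁻¹) := by
      show u⁻¹ • dd u = - ((u⁻¹)⁻¹ • KaehlerDifferential.D ℂ K u⁻¹)
      rw [Derivation.leibniz_inv, inv_inv, smul_smul, ← neg_smul]
      congr 1
      field_simp
    rw [h2, h1, neg_add, neg_mul, neg_smul, neg_smul]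

end

theorem stmt_V1 : Stmt_V1 := by
  classical
  intro K _ _ n V hV c u hcu π hπ
  obtain ⟨π₀, hπ₀, hfac, hdiv⟩ := exists_unif hV.dvr
  have hπ₀0 := hπ₀.ne_zero
  have hex : ∀ i, ∃ k ∈ V, ∃ b ∈ V, ∃ v ∈ V,
      c i • dd (u i) = (k * π₀⁻¹) • dd π₀ + b • dd v := by
    intro i
    rcases hcu i with ⟨h1, h2⟩ | ⟨h1, h2⟩
    · refine ⟨0, V.zero_mem, 1, V.one_mem, u i, h1, ?_⟩
      rw [h2, zero_mul, zero_smul, zero_add]
    · rw [h2]
      exact log_diff hπ₀0 hfac (u i) h1
  choose k hk b hb v hv hkbv using hex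
  have h1 : (π * ∏ i, c i) • wedge u = π • exteriorPower.ιMulti K n
      ((fun i => (k i * π₀⁻¹) • dd π₀) + fun i => b i • dd (v i)) := by
    rw [mul_smul]
    congr 1
    unfold wedge
    rw [← AlternatingMap.coe_multilinearMap, ← MultilinearMap.map_smul_univ]
    congr 1
    funext i
    exact hkbv i
  rw [h1, ← AlternatingMap.coe_multilinearMap, MultilinearMap.map_add_univ, Finset.smul_sum]
  apply AddSubgroup.sum_mem
  intro s _
  have h2 : (s.piecewise (fun i => (k i * π₀⁻¹) • dd π₀) fun i => b i • dd (v i)) =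
      fun i => (if i ∈ s then k i * π₀⁻¹ else b i) • dd (if i ∈ s then π₀ else v i) := by
    funext i
    unfold Finset.piecewise
    split_ifs <;> rfl
  rw [h2, MultilinearMap.map_smul_univ, smul_smul]
  by_cases hs : s.card ≤ 1
  · apply regForms_smul
    · rcases Nat.lt_or_ge s.card 1 with h0 | h0
      · have : s = ∅ := Finset.card_eq_zero.1 (by omega)
        subst this
        simp only [Finset.notMem_empty, if_false]
        exact V.mul_mem _ _ hπ.1 (V.prod_mem fun i _ => hb i)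
      · obtain ⟨j, rfl⟩ := Finset.card_eq_one.1 (le_antisymm hs h0)
        rw [← Finset.mul_prod_erase Finset.univ _ (Finset.mem_univ j)]
        rw [if_pos (Finset.mem_singleton_self j)]
        have h3 : π * (k j * π₀⁻¹ * ∏ x ∈ Finset.univ.erase j,
            (if x ∈ ({j} : Finset (Fin n)) then k x * π₀⁻¹ else b x)) =
            (π * π₀⁻¹) * (k j * ∏ x ∈ Finset.univ.erase j, b x) := by
          have h4 : ∏ x ∈ Finset.univ.erase j,
              (if x ∈ ({j} : Finset (Fin n)) then k x * π₀⁻¹ else b x) =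
              ∏ x ∈ Finset.univ.erase j, b x := by
            apply Finset.prod_congr rfl
            intro x hx
            rw [if_neg]
            rw [Finset.mem_singleton]
            exact (Finset.mem_erase.1 hx).1
          rw [h4]
          ring
        rw [h3]
        exact V.mul_mem _ _ (hdiv π hπ) (V.mul_mem _ _ (hk j) (V.prod_mem fun i _ => hb i))
    · apply wedge_mem_regForms
      intro i
      split_ifs
      · exact hπ₀.1
      · exact hv i
  · obtain ⟨i, hi, j, hj, hij⟩ := Finset.one_lt_card.1 (not_le.1 hs)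
    have h3 : (exteriorPower.ιMulti K n (M := Ω[K⁄ℂ])).toMultilinearMap
        (fun i => dd (if i ∈ s then π₀ else v i)) = 0 := by
      apply (exteriorPower.ιMulti K n (M := Ω[K⁄ℂ])).map_eq_zero_of_eq _ _ hij
      simp only [if_pos hi, if_pos hj]
    rw [h3, smul_zero]
    exact AddSubgroup.zero_mem _

end Pool.Agent.MPad0563
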