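import Pool.Agent.Work.MP_ad0563_ag_helper39.V2a
import Pool.Agent.Work.MP_ad0563_ag_helper39.V1
import Pool.Agent.Work.MP_ad0563_ag_helper39.Dim

/-!
Block V2 (smooth lemma).
-/

set_option linter.unusedSectionVars false

namespace Pool.Agent.MPad0563

variable {K : Type} [Field K] [Algebra ℂ K]

/-- Differentials of polynomial expressions. -/
lemma dd_mem_of_adjoin {V : ValuationSubring K} {hc : ∀ c : ℂ, algebraMap ℂ K c ∈ V}
    (S : Set (toSub V hc)) (z : toSub V hc) (hz : z ∈ Algebra.adjoin ℂ S) :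
    dd (z : K) ∈ lat V ((fun s : toSub V hc => dd (s : K)) '' S) := by
  induction hz using Algebra.adjoin_induction with
  | mem x hx => exact mem_lat ⟨x, hx, rfl⟩
  | algebraMap c =>
    have : dd ((algebraMap ℂ (toSub V hc) c : toSub V hc) : K) = 0 :=
      Derivation.map_algebraMap _ c
    rw [this]
    exact AddSubgroup.zero_mem _
  | add x y _ _ hx hy =>
    have : dd ((x + y : toSub V hc) : K) = dd (x : K) + dd (y : K) := map_add _ _ _
    rw [this]
    exact AddSubgroup.add_mem _ hx hy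
  | mul x y _ _ hx hy =>
    have : dd ((x * y : toSub V hc) : K) = (x : K) • dd (y : K) + (y : K) • dd (x : K) :=
      Derivation.leibniz _ _ _
    rw [this]
    exact AddSubgroup.add_mem _ (lat_smul x.2 hy) (lat_smul y.2 hx)

/-- The differential of an element whose residue is algebraic over the residues of `S`. -/
lemma dd_of_algebraic {V : ValuationSubring K} {hc : ∀ c : ℂ, algebraMap ℂ K c ∈ V}
    {κ : Type} [Field κ] [Algebra ℂ κ] (ρ : toSub V hc →ₐ[ℂ] κ)
    (hρ : ∀ z : toSub V hc, ρ z = 0 ↔ ¬ IsUnitOf V (z : K)) {π₀ : K} (hπ₀ : IsSmallOf V π₀)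
    (hdiv : ∀ π : K, IsSmallOf V π → π * π₀⁻¹ ∈ V)
    (S : Set (toSub V hc)) (y : toSub V hc)
    (hy : IsAlgebraic (Algebra.adjoin ℂ (ρ '' S)) (ρ y)) :
    ∃ s ∈ lat V ((fun s : toSub V hc => dd (s : K)) '' S), ∃ f ∈ V,
      ∃ μ ∈ lat V (dd '' (V : Set K)), dd (y : K) = s + f • dd π₀ + π₀ • μ := by
  classical
  -- a polynomial of minimal degree
  have hex : ∃ n : ℕ, ∃ p : Polynomial (Algebra.adjoin ℂ (ρ '' S)), p.natDegree = n ∧ p ≠ 0 ∧
      Polynomial.aeval (ρ y) p = 0 := by
    obtain ⟨p, hp0, hp⟩ := hy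
    exact ⟨_, p, rfl, hp0, hp⟩
  obtain ⟨p, hpn, hp0, hp⟩ := Nat.find_spec hex
  have hmin : ∀ q : Polynomial (Algebra.adjoin ℂ (ρ '' S)), q.natDegree < p.natDegree → q ≠ 0 →
      Polynomial.aeval (ρ y) q ≠ 0 := by
    intro q hq hq0 hqz
    rw [hpn] at hq
    exact Nat.find_min hex hq ⟨q, rfl, hq0, hqz⟩
  have hinj : Function.Injective (algebraMap (Algebra.adjoin ℂ (ρ '' S)) κ) :=
    Subtype.val_injective
  have hdeg : p.natDegree ≠ 0 := by
    intro h
    have h1 := Polynomial.eq_C_of_natDegree_eq_zero h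
    rw [h1, Polynomial.aeval_C] at hp
    have h2 : p.coeff 0 = 0 := hinj (by rw [hp, map_zero])
    rw [h2, Polynomial.C_0] at h1
    exact hp0 h1
  have hder : Polynomial.aeval (ρ y) (Polynomial.derivative p) ≠ 0 := by
    apply hmin
    · exact Polynomial.natDegree_derivative_lt hdeg
    · intro h
      have : CharZero (Algebra.adjoin ℂ (ρ '' S)) :=
        charZero_of_injective_algebraMap (algebraMap ℂ (Algebra.adjoin ℂ (ρ '' S))).injective
      exact hdeg (Polynomial.derivative_eq_zero.1 h)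
  -- lift the coefficients
  have hlift : ∀ k : ℕ, ∃ α ∈ Algebra.adjoin ℂ S, ρ α = (p.coeff k : κ) := by
    intro k
    have h1 : (p.coeff k : κ) ∈ Algebra.adjoin ℂ (ρ '' S) := (p.coeff k).2
    have h2 : Algebra.adjoin ℂ (ρ '' S) = (Algebra.adjoin ℂ S).map ρ :=
      (ρ.map_adjoin S).symm
    exact (SetLike.ext_iff.1 h2 _).1 h1
  choose α hα1 hα2 using hlift
  set m := p.natDegree + 1 with hm
  set z : toSub V hc := ∑ k ∈ Finset.range m, α k * y ^ k with hz
  set e : toSub V hc := ∑ k ∈ Finset.range m, α k * (k * y ^ (k - 1)) with he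
  have hρz : ρ z = 0 := by
    rw [hz, map_sum, ← hp, Polynomial.aeval_eq_sum_range]
    refine Finset.sum_congr rfl fun k _ => ?_
    rw [map_mul, map_pow, hα2]
    rfl
  have hρe : ρ e ≠ 0 := by
    rw [he, map_sum]
    convert hder using 1
    rw [Polynomial.derivative_apply, Polynomial.sum_over_range _ (by simp), map_sum]
    refine Finset.sum_congr rfl fun k _ => ?_
    rw [map_mul, map_mul, map_mul, map_pow, map_pow, map_natCast, hα2, Polynomial.aeval_C,
      Polynomial.aeval_X, map_mul, map_natCast, mul_assoc]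
    rfl
  have heu : IsUnitOf V (e : K) := by
    by_contra h
    exact hρe ((hρ e).2 h)
  -- `z = π₀ g`
  obtain ⟨g, hg, hzg⟩ : ∃ g ∈ V, (z : K) = g * π₀ := by
    have hz1 := (hρ z).1 hρz
    by_cases hz0 : (z : K) = 0
    · exact ⟨0, V.zero_mem, by rw [hz0, zero_mul]⟩
    · refine ⟨(z : K) * π₀⁻¹, hdiv _ ⟨z.2, fun h => hz1 ⟨hz0, z.2, h⟩⟩, ?_⟩
      rw [mul_assoc, inv_mul_cancel₀ hπ₀.ne_zero, mul_one]
  -- the differential of `z`, computed in two ways
  have hd1 : dd (z : K) = g • dd π₀ + π₀ • dd g := by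
    rw [hzg]
    exact Derivation.leibniz _ _ _
  set s : Ω[K⁄ℂ] := ∑ k ∈ Finset.range m, ((y : K) ^ k) • dd (α k : K) with hs
  have hsmem : s ∈ lat V ((fun s : toSub V hc => dd (s : K)) '' S) := by
    apply AddSubgroup.sum_mem
    intro k _
    exact lat_smul (V.pow_mem y.2 k) (dd_mem_of_adjoin S (α k) (hα1 k))
  have hd2 : dd (z : K) = s + (e : K) • dd (y : K) := by
    have h1 : (z : K) = ∑ k ∈ Finset.range m, (α k : K) * (y : K) ^ k := by
      rw [hz, AddSubmonoidClass.coe_finsetSum]
      rfl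
    have h2 : (e : K) = ∑ k ∈ Finset.range m, (α k : K) * (k * (y : K) ^ (k - 1)) := by
      rw [he, AddSubmonoidClass.coe_finsetSum]
      refine Finset.sum_congr rfl fun k _ => ?_
      push_cast
      rfl
    rw [h1, h2, hs, Finset.sum_smul, ← Finset.sum_add_distrib]
    show KaehlerDifferential.D ℂ K _ = _
    rw [map_sum]
    refine Finset.sum_congr rfl fun k _ => ?_
    rw [Derivation.leibniz, Derivation.leibniz_pow, add_comm]
    congr 1
    rw [← Nat.cast_smul_eq_nsmul K, smul_smul, smul_smul]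
    congr 1
    ring
  have hd3 : (e : K) • dd (y : K) = -s + g • dd π₀ + π₀ • dd g := by
    have := hd1.symm.trans hd2
    rw [eq_comm, ← sub_eq_iff_eq_add'] at this
    rw [← this]
    abel
  refine ⟨(e : K)⁻¹ • (-s), lat_smul heu.2.2 (AddSubgroup.neg_mem _ hsmem), (e : K)⁻¹ * g,
    V.mul_mem _ _ heu.2.2 hg, (e : K)⁻¹ • dd g, lat_smul heu.2.2 (mem_lat ⟨g, hg, rfl⟩), ?_⟩
  calc dd (y : K) = (e : K)⁻¹ • ((e : K) • dd (y : K)) := by
        rw [smul_smul, inv_mul_cancel₀ heu.1, one_smul]
    _ = _ := by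
        rw [hd3, smul_add, smul_add, mul_smul, smul_comm π₀]

/-- A maximal algebraically independent subfamily. -/
lemma exists_maximal_indep {κ : Type} [Field κ] [Algebra ℂ κ] {n : ℕ} (r : Fin n → κ) :
    ∃ I : Finset (Fin n), AlgebraicIndepOn ℂ r (I : Set (Fin n)) ∧
      ∀ j ∉ I, IsAlgebraic (Algebra.adjoin ℂ (r '' (I : Set (Fin n)))) (r j) := by
  classical
  obtain ⟨I, hI, hmax⟩ := ((Finset.univ : Finset (Finset (Fin n))).filter
    (fun I : Finset (Fin n) => AlgebraicIndepOn ℂ r (I : Set (Fin n)))).exists_max_image Finset.card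
      ⟨∅, by
        rw [Finset.mem_filter]
        refine ⟨Finset.mem_univ _, ?_⟩
        unfold AlgebraicIndepOn
        have : IsEmpty ((∅ : Finset (Fin n)) : Set (Fin n)) := by simp
        rw [algebraicIndependent_empty_type_iff]
        exact (algebraMap ℂ κ).injective⟩
  rw [Finset.mem_filter] at hI
  refine ⟨I, hI.2, fun j hj => ?_⟩
  by_contra hcon
  have h1 : AlgebraicIndepOn ℂ r ((insert j I : Finset (Fin n)) : Set (Fin n)) := by
    rw [Finset.coe_insert]
    exact hI.2.insert hcon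
  have h2 := hmax (insert j I) (by rw [Finset.mem_filter]; exact ⟨Finset.mem_univ _, h1⟩)
  rw [Finset.card_insert_of_notMem hj] at h2
  omega

/-- An alternating form with an entry in the lattice spanned by other entries vanishes. -/
lemma update_lat_eq_zero {V : ValuationSubring K} {n : ℕ} (x : Fin n → Ω[K⁄ℂ]) (j : Fin n)
    (S : Set (Ω[K⁄ℂ])) (hS : ∀ s ∈ S, ∃ i, i ≠ j ∧ x i = s) (s : Ω[K⁄ℂ]) (hs : s ∈ lat V S) :
    exteriorPower.ιMulti K n (Function.update x j s) = 0 := by
  unfold lat at hs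
  induction hs using AddSubgroup.closure_induction with
  | mem z hz =>
    obtain ⟨a, _, s0, hs0, rfl⟩ := hz
    obtain ⟨i, hij, rfl⟩ := hS s0 hs0
    rw [AlternatingMap.map_update_smul]
    have : exteriorPower.ιMulti K n (Function.update x j (x i)) = 0 := by
      apply AlternatingMap.map_eq_zero_of_eq _ _ _ hij
      rw [Function.update_self, Function.update_of_ne hij]
    rw [this, smul_zero]
  | zero => exact AlternatingMap.map_update_zero _ _ _
  | add y z _ _ hy hz => rw [AlternatingMap.map_update_add, hy, hz, add_zero]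
  | neg y _ hy => rw [AlternatingMap.map_update_neg, hy, neg_zero]

theorem stmt_V2 : Stmt_V2 := by
  classical
  intro K _ _ n B a V hn1 hn haB hcl hnoeth hfrac hV hBV hcoord
  set SA : Set (Ω[K⁄ℂ]) := Set.range fun i => dd (a i) with hSA
  have hBlat : ∀ u ∈ B, dd u ∈ lat V SA := by
    intro u hu
    obtain ⟨c, hc, hcu⟩ := hcoord u hu
    show KaehlerDifferential.D ℂ K u ∈ _
    rw [hcu]
    apply AddSubgroup.sum_mem
    intro i _
    exact mem_lat_smul (hc i) ⟨i, rfl⟩
  have haV : ∀ i, a i ∈ V := fun i => hBV _ (haB i)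
  have hne : wedge a ≠ 0 := by
    apply wedge_ne_zero hn
    have h1 : ∀ u ∈ B, dd u ∈ Submodule.span K SA := by
      intro u hu
      obtain ⟨c, hc, hcu⟩ := hcoord u hu
      show KaehlerDifferential.D ℂ K u ∈ _
      rw [hcu]
      apply Submodule.sum_mem
      intro i _
      exact Submodule.smul_mem _ _ (Submodule.subset_span ⟨i, rfl⟩)
    rw [← KaehlerDifferential.span_range_derivation ℂ K, Submodule.span_le]
    rintro _ ⟨z, rfl⟩
    obtain ⟨u, hu, v, hv, hv0, rfl⟩ := hfrac z
    rw [SetLike.mem_coe, Derivation.leibniz_div]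
    exact Submodule.smul_mem _ _ (Submodule.sub_mem _ (Submodule.smul_mem _ _ (h1 u hu))
      (Submodule.smul_mem _ _ (h1 v hv)))
  refine ⟨hne, ?_, ?_⟩
  · -- `V` is a localisation of `B`
    intro hloc
    have h1 : ∀ z ∈ V, dd z ∈ lat V SA := by
      intro z hz
      obtain ⟨p, hp, q, hq, hq0, hqV, rfl⟩ := hloc z hz
      show KaehlerDifferential.D ℂ K _ ∈ _
      rw [Derivation.leibniz_div]
      exact lat_smul (V.pow_mem hqV _) (AddSubgroup.sub_mem _ (lat_smul (hBV q hq) (hBlat p hp))
        (lat_smul (hBV p hp) (hBlat q hq)))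
    -- the lattice generated by the wedge
    have h2 : ∀ η ∈ regForms V n, ∃ c ∈ V, η = c • wedge a := by
      let N : AddSubgroup (⋀[K]^n (Ω[K⁄ℂ])) :=
        { carrier := {η | ∃ c ∈ V, η = c • wedge a}
          add_mem' := by
            rintro _ _ ⟨c, hc, rfl⟩ ⟨c', hc', rfl⟩
            exact ⟨c + c', V.add_mem _ _ hc hc', (add_smul _ _ _).symm⟩
          zero_mem' := ⟨0, V.zero_mem, (zero_smul _ _).symm⟩
          neg_mem' := by
            rintro _ ⟨c, hc, rfl⟩
            exact ⟨-c, V.neg_mem _ hc, (neg_smul _ _).symm⟩ }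
      have hN : ∀ c ∈ V, ∀ η ∈ N, c • η ∈ N := by
        rintro c hc _ ⟨c', hc', rfl⟩
        exact ⟨c * c', V.mul_mem _ _ hc hc', smul_smul _ _ _⟩
      have h3 : regForms V n ≤ N := by
        rw [regForms_eq]
        apply lat_le hN
        rintro _ ⟨u, hu, rfl⟩
        apply multi_mem (exteriorPower.ιMulti K n (M := Ω[K⁄ℂ])).toMultilinearMap SA N hN _ _
          (fun i => h1 (u i) (hu i))
        intro x hx
        choose f hf using hx
        have hxf : x = (fun i => dd (a i)) ∘ f := by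
          funext i
          exact (hf i).symm
        rw [hxf]
        by_cases hinj : Function.Injective f
        · let σ : Equiv.Perm (Fin n) := Equiv.ofBijective f (Finite.injective_iff_bijective.1 hinj)
          have h4 := (exteriorPower.ιMulti K n (M := Ω[K⁄ℂ])).map_perm (fun i => dd (a i)) σ
          have h5 : (exteriorPower.ιMulti K n (M := Ω[K⁄ℂ])).toMultilinearMap
              ((fun i => dd (a i)) ∘ f) = Equiv.Perm.sign σ • wedge a := h4
          rw [h5]
          rcases Int.units_eq_one_or (Equiv.Perm.sign σ) with h6 | h6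
          · rw [h6, one_smul]
            exact ⟨1, V.one_mem, (one_smul _ _).symm⟩
          · rw [h6]
            refine ⟨-1, V.neg_mem _ V.one_mem, ?_⟩
            rw [Units.neg_smul, one_smul]
            exact (neg_one_smul K (wedge a)).symm
        · have h4 : (exteriorPower.ιMulti K n (M := Ω[K⁄ℂ])).toMultilinearMap
              ((fun i => dd (a i)) ∘ f) = 0 := by
            rw [Function.Injective] at hinj
            push Not at hinj
            obtain ⟨i, i', h5, h6⟩ := hinj
            apply (exteriorPower.ιMulti K n (M := Ω[K⁄ℂ])).map_eq_zero_of_eq _ _ h6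
            simp only [Function.comp_apply, h5]
          rw [h4]
          exact N.zero_mem
      intro η hη
      exact h3 hη
    refine ⟨1, one_ne_zero, ?_, ?_, ?_⟩
    · rw [inv_one, one_smul]
      exact wedge_mem_regForms haV
    · intro η hη
      obtain ⟨c, hc, rfl⟩ := h2 η hη
      exact ⟨c, hc, by rw [inv_one, one_smul]⟩
    · rw [one_mul, one_pow]
      exact ⟨one_ne_zero, V.one_mem, by rw [inv_one]; exact V.one_mem⟩
  · -- `V` is not a localisation of `B`
    intro hloc
    obtain ⟨κ, _, _, ρ, hsurj, hρ⟩ := exists_residue V hV.const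
    obtain ⟨π₀, hπ₀, -, hdiv⟩ := exists_unif hV.dvr
    have hπ₀0 := hπ₀.ne_zero
    let a' : Fin n → toSub V hV.const := fun i => ⟨a i, haV i⟩
    let r : Fin n → κ := fun i => ρ (a' i)
    obtain ⟨I, hI, hIalg⟩ := exists_maximal_indep r
    have hcard : I.card + 2 ≤ n := by
      have h1 := card_add_two_le n hn B V hcl hnoeth hfrac hV.const hBV hloc ρ hρ
        (fun i : I => (⟨a i, haB i⟩ : B)) hI
      rwa [Fintype.card_coe] at h1
    -- two indices outside of `I`
    obtain ⟨j₁, hj₁, j₂, hj₂, hj⟩ : ∃ j₁, j₁ ∉ I ∧ ∃ j₂, j₂ ∉ I ∧ j₁ ≠ j₂ := by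
      have h1 : 1 < (Iᶜ).card := by
        rw [Finset.card_compl, Fintype.card_fin]
        omega
      obtain ⟨j₁, h2, j₂, h3, h4⟩ := Finset.one_lt_card.1 h1
      exact ⟨j₁, Finset.mem_compl.1 h2, j₂, Finset.mem_compl.1 h3, h4⟩
    set S : Set (toSub V hV.const) := a' '' (I : Set (Fin n)) with hS
    set SI : Set (Ω[K⁄ℂ]) := (fun s : toSub V hV.const => dd (s : K)) '' S with hSI
    have hdec : ∀ j ∉ I, ∃ s ∈ lat V SI, ∃ f ∈ V, ∃ μ ∈ lat V (dd '' (V : Set K)),
        dd (a j) = s + f • dd π₀ + π₀ • μ := by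
      intro j hj
      apply dd_of_algebraic ρ hρ hπ₀ hdiv S (a' j)
      have h1 : ρ '' S = r '' (I : Set (Fin n)) := by
        rw [hS, Set.image_image]
      rw [h1]
      exact hIalg j hj
    obtain ⟨s₁, hs₁, f₁, hf₁, μ₁, hμ₁, hd₁⟩ := hdec j₁ hj₁
    obtain ⟨s₂, hs₂, f₂, hf₂, μ₂, hμ₂, hd₂⟩ := hdec j₂ hj₂
    set x : Fin n → Ω[K⁄ℂ] := fun i => dd (a i) with hx
    have hSIx : ∀ s ∈ SI, ∃ i ∈ I, x i = s := by
      rintro _ ⟨_, ⟨i, hi, rfl⟩, rfl⟩
      exact ⟨i, hi, rfl⟩
    have hxlat : ∀ i, x i ∈ lat V (dd '' (V : Set K)) := fun i => mem_lat ⟨a i, haV i, rfl⟩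
    have hπlat : dd π₀ ∈ lat V (dd '' (V : Set K)) := mem_lat ⟨π₀, hπ₀.1, rfl⟩
    let g := exteriorPower.ιMulti K n (M := Ω[K⁄ℂ])
    -- first expansion
    have hexp1 : wedge a = f₁ • g (Function.update x j₁ (dd π₀)) +
        π₀ • g (Function.update x j₁ μ₁) := by
      have h1 : wedge a = g (Function.update x j₁ (s₁ + f₁ • dd π₀ + π₀ • μ₁)) := by
        rw [← hd₁]
        show g x = g (Function.update x j₁ (x j₁))
        rw [Function.update_eq_self]
      rw [h1, AlternatingMap.map_update_add, AlternatingMap.map_update_add,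
        AlternatingMap.map_update_smul, AlternatingMap.map_update_smul]
      have h2 : g (Function.update x j₁ s₁) = 0 := by
        apply update_lat_eq_zero x j₁ SI _ s₁ hs₁
        intro s hs
        obtain ⟨i, hi, his⟩ := hSIx s hs
        exact ⟨i, fun h => hj₁ (h ▸ hi), his⟩
      rw [h2, zero_add]
    -- second expansion
    set y : Fin n → Ω[K⁄ℂ] := Function.update x j₁ (dd π₀) with hy
    have hyj₂ : y j₂ = dd (a j₂) := by
      rw [hy, Function.update_of_ne (Ne.symm hj)]
    have hexp2 : g y = π₀ • g (Function.update y j₂ μ₂) := by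
      have h1 : g y = g (Function.update y j₂ (s₂ + f₂ • dd π₀ + π₀ • μ₂)) := by
        rw [← hd₂, ← hyj₂, Function.update_eq_self]
      rw [h1, AlternatingMap.map_update_add, AlternatingMap.map_update_add,
        AlternatingMap.map_update_smul, AlternatingMap.map_update_smul]
      have h2 : g (Function.update y j₂ s₂) = 0 := by
        apply update_lat_eq_zero y j₂ SI _ s₂ hs₂
        intro s hs
        obtain ⟨i, hi, his⟩ := hSIx s hs
        refine ⟨i, fun h => hj₂ (h ▸ hi), ?_⟩
        have hij : i ≠ j₁ := fun h => hj₁ (h ▸ hi)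
        rw [hy, Function.update_of_ne hij]
        exact his
      have h3 : g (Function.update y j₂ (dd π₀)) = 0 := by
        apply AlternatingMap.map_eq_zero_of_eq _ _ _ hj
        rw [Function.update_self, Function.update_of_ne hj, hy, Function.update_self]
      rw [h2, h3, smul_zero, zero_add, zero_add]
    refine ⟨π₀, hπ₀0, ?_, by rw [one_mul, pow_one]; exact hπ₀⟩
    rw [hexp1, hexp2, smul_add, smul_comm f₁ π₀, smul_smul, inv_mul_cancel₀ hπ₀0, one_smul,
      smul_smul, inv_mul_cancel₀ hπ₀0, one_smul]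
    apply AddSubgroup.add_mem
    · apply regForms_smul hf₁
      apply ιMulti_mem_regForms
      intro i
      by_cases hi : i = j₂
      · rw [hi, Function.update_self]; exact hμ₂
      · rw [Function.update_of_ne hi, hy]
        by_cases hi' : i = j₁
        · rw [hi', Function.update_self]; exact hπlat
        · rw [Function.update_of_ne hi']; exact hxlat i
    · apply ιMulti_mem_regForms
      intro i
      by_cases hi : i = j₁
      · rw [hi, Function.update_self]; exact hμ₁
      · rw [Function.update_of_ne hi]; exact hxlat i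

end Pool.Agent.MPad0563
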