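import Pool.Agent.Work.MP_ad0563_ag_helper39.V6

/-!
Block V2, part 1: residues of the elements of a noetherian normal domain in a divisorial
valuation ring which is not a localisation of it.
-/

set_option linter.unusedSectionVars false

namespace Pool.Agent.MPad0563

/-- A nonzero element which goes to zero is independent of elements with independent images. -/
lemma algInd_option {D E : Type} [CommRing D] [IsDomain D] [Algebra ℂ D] [CommRing E]
    [Algebra ℂ E] (φ : D →ₐ[ℂ] E) {ι : Type} (x : ι → D)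
    (hx : AlgebraicIndependent ℂ fun i => φ (x i)) (d : D) (hd : d ≠ 0) (hφ : φ d = 0) :
    AlgebraicIndependent ℂ fun o : Option ι => o.elim d x := by
  have hx' : AlgebraicIndependent ℂ x := AlgebraicIndependent.of_comp φ hx
  rw [hx'.option_iff_transcendental]
  have hcoef : ∀ c : Algebra.adjoin ℂ (Set.range x), φ (c : D) = 0 → c = 0 := by
    intro c hc
    obtain ⟨F, hF⟩ := hx'.aevalEquiv.surjective c
    have h1 : MvPolynomial.aeval x F = (c : D) := by
      rw [← hF, ← hx'.algebraMap_aevalEquiv]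
      rfl
    rw [← h1, MvPolynomial.comp_aeval_apply] at hc
    have h2 : F = 0 := hx.eq_zero_of_aeval_eq_zero F hc
    rw [← hF, h2, map_zero]
  have key : ∀ n : ℕ, ∀ p : Polynomial (Algebra.adjoin ℂ (Set.range x)), p.natDegree = n →
      p ≠ 0 → Polynomial.aeval d p ≠ 0 := by
    intro n
    induction n using Nat.strong_induction_on with
    | _ n ih =>
      intro p hpn hp0 hp
      have hdec := Polynomial.divX_mul_X_add p
      by_cases h0 : p.coeff 0 = 0
      · rw [h0, Polynomial.C_0, add_zero] at hdec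
        have hq0 : p.divX ≠ 0 := by
          intro h
          rw [h, zero_mul] at hdec
          exact hp0 hdec.symm
        have h1 : Polynomial.aeval d p.divX = 0 := by
          have h2 : Polynomial.aeval d (p.divX * Polynomial.X) = 0 := by rw [hdec]; exact hp
          rw [map_mul, Polynomial.aeval_X] at h2
          exact (mul_eq_zero.1 h2).resolve_right hd
        have hn0 : p.natDegree ≠ 0 := by
          intro h
          rw [Polynomial.eq_C_of_natDegree_eq_zero h, h0, Polynomial.C_0] at hp0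
          exact hp0 rfl
        refine ih p.divX.natDegree ?_ p.divX rfl hq0 h1
        rw [Polynomial.natDegree_divX_eq_natDegree_tsub_one, ← hpn]
        omega
      · apply h0
        apply hcoef
        have h1 : φ (Polynomial.aeval d (p.divX * Polynomial.X + Polynomial.C (p.coeff 0))) =
            0 := by rw [hdec, hp, map_zero]
        rw [map_add, map_mul, Polynomial.aeval_X, Polynomial.aeval_C, map_add, map_mul, hφ,
          mul_zero, zero_add] at h1
        exact h1
  rintro ⟨p, hp0, hp⟩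
  exact key _ p rfl hp0 hp

section

variable {K : Type} [Field K] [Algebra ℂ K]

/-- The inclusion of a subalgebra in a valuation ring. -/
def incl (V : ValuationSubring K) (hc : ∀ c : ℂ, algebraMap ℂ K c ∈ V) (B : Subalgebra ℂ K)
    (hB : ∀ z ∈ B, z ∈ V) : B →ₐ[ℂ] toSub V hc :=
  Subalgebra.inclusion (show B ≤ toSub V hc from hB)

/-- If there is no prime between `0` and the centre then `V` is a localisation. -/
lemma exists_prime (B : Subalgebra ℂ K) (V : ValuationSubring K)
    (hcl : IsIntegrallyClosedIn B K) (hnoeth : IsNoetherianRing B)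
    (hfrac : ∀ z : K, ∃ u ∈ B, ∃ v ∈ B, v ≠ 0 ∧ z = u / v)
    (hc : ∀ c : ℂ, algebraMap ℂ K c ∈ V) (hB : ∀ z ∈ B, z ∈ V) (hloc : ¬ IsLocOf V B) :
    ∃ (Q : Ideal B) (_ : Q.IsPrime), Q ≠ ⊥ ∧ (∀ b ∈ Q, ¬ IsUnitOf V (b : K)) ∧
      ∃ b : B, b ∉ Q ∧ ¬ IsUnitOf V (b : K) := by
  obtain ⟨κ, _, _, ρ, hsurj, hρ⟩ := exists_residue V hc
  set ψ : B →ₐ[ℂ] κ := ρ.comp (incl V hc B hB) with hψ
  set P : Ideal B := RingHom.ker ψ.toRingHom with hP
  have hPprime : P.IsPrime := RingHom.ker_isPrime _
  have hmemP : ∀ b : B, b ∈ P ↔ ¬ IsUnitOf V (b : K) := by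
    intro b
    rw [hP, RingHom.mem_ker]
    exact hρ (incl V hc B hB b)
  by_contra hcon
  push Not at hcon
  apply hloc
  have hfr : IsFractionRing B K := by
    apply IsFractionRing.of_field
    intro z
    obtain ⟨u, hu, v, hv, _, hz⟩ := hfrac z
    exact ⟨⟨u, hu⟩, ⟨v, hv⟩, hz⟩
  have hic : IsIntegrallyClosed B := (isIntegrallyClosed_iff_isIntegrallyClosedIn K).mpr hcl
  let R := Localization.AtPrime P
  have hle : P.primeCompl ≤ nonZeroDivisors B := P.primeCompl_le_nonZeroDivisors
  have hdom : IsDomain R := IsLocalization.isDomain_localization hle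
  have hnoethR : IsNoetherianRing R := IsLocalization.isNoetherianRing P.primeCompl R hnoeth
  have hicR : IsIntegrallyClosed R := isIntegrallyClosed_of_isLocalization R P.primeCompl hle
  have hmax : ∀ I : Ideal R, I ≠ ⊥ → I.IsPrime → I = IsLocalRing.maximalIdeal R := by
    intro I hI hIp
    have hI2 := (IsLocalization.isPrime_iff_isPrime_disjoint P.primeCompl R I).mp hIp
    have hI3 : I.under B ≠ ⊥ := by
      intro h
      apply hI
      rw [← IsLocalization.map_under P.primeCompl R I, h, Ideal.map_bot]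
    have hI4 : ∀ b ∈ I.under B, b ∈ P := by
      intro b hb
      by_contra hbP
      exact Set.disjoint_left.1 hI2.2 hbP hb
    have hI5 : I.under B = P := by
      apply le_antisymm hI4
      intro b hb
      by_contra hbI
      exact (hmemP b).1 hb
        (hcon (I.under B) hI2.1 hI3 (fun b hb => (hmemP b).1 (hI4 b hb)) b hbI)
    rw [← IsLocalization.map_under P.primeCompl R I, hI5]
    exact Localization.AtPrime.map_eq_maximalIdeal
  have h4 : IsIntegrallyClosed R ∧
      ∀ I : Ideal R, I ≠ ⊥ → I.IsPrime → I = IsLocalRing.maximalIdeal R := ⟨hicR, hmax⟩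
  have hval : ValuationRing R := by
    have h5 := (tfae_of_isNoetherianRing_of_isLocalRing_of_isDomain R).out 3 1
    exact h5.mp h4
  -- elements of `B` outside of `P` are units of `V`
  have hunit : ∀ b : B, b ∉ P → IsUnitOf V (b : K) := fun b hb => by
    by_contra h
    exact hb ((hmemP b).2 h)
  intro z hz
  by_cases hz0 : z = 0
  · exact ⟨0, B.zero_mem, 1, B.one_mem, one_ne_zero, by rw [inv_one]; exact V.one_mem, by
      rw [hz0, zero_div]⟩
  obtain ⟨u, hu, v, hv, hv0, rfl⟩ := hfrac z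
  have hu0 : u ≠ 0 := by
    rintro rfl
    exact hz0 (zero_div v)
  have hinjR : Function.Injective (algebraMap B R) := IsLocalization.injective R hle
  obtain ⟨c, hc'⟩ := ValuationRing.cond (algebraMap B R ⟨u, hu⟩) (algebraMap B R ⟨v, hv⟩)
  obtain ⟨⟨p, q⟩, hpq⟩ := IsLocalization.surj P.primeCompl c
  simp only at hpq
  have hq : IsUnitOf V ((q : B) : K) := hunit q q.2
  rcases hc' with hc' | hc'
  · -- `u c = v`
    have h1 : (⟨u, hu⟩ : B) * p = ⟨v, hv⟩ * (q : B) := by
      apply hinjR
      rw [map_mul, map_mul, ← hpq, ← hc', mul_assoc]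
    have h2 : u * (p : K) = v * ((q : B) : K) := congrArg Subtype.val h1
    have hp0 : (p : K) ≠ 0 := by
      intro h0
      rw [h0, mul_zero] at h2
      exact mul_ne_zero hv0 hq.1 h2.symm
    by_cases hpP : p ∈ P
    · exfalso
      apply (hmemP p).1 hpP
      refine ⟨hp0, hB _ p.2, ?_⟩
      have h3 : (p : K)⁻¹ = u / v * ((q : B) : K)⁻¹ := by
        have := hq.1
        field_simp
        linear_combination -h2
      rw [h3]
      exact V.mul_mem _ _ hz hq.2.2
    · have hp := hunit p hpP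
      refine ⟨q, (q : B).2, p, p.2, hp0, hp.2.2, ?_⟩
      rw [div_eq_div_iff hv0 hp0, h2, mul_comm]
  · -- `v c = u`
    have h1 : (⟨v, hv⟩ : B) * p = ⟨u, hu⟩ * (q : B) := by
      apply hinjR
      rw [map_mul, map_mul, ← hpq, ← hc', mul_assoc]
    have h2 : v * (p : K) = u * ((q : B) : K) := congrArg Subtype.val h1
    refine ⟨p, p.2, q, (q : B).2, hq.1, hq.2.2, ?_⟩
    rw [div_eq_div_iff hv0 hq.1, ← h2, mul_comm]

/-- At most `n - 2` elements of `B` have algebraically independent residues. -/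
lemma card_add_two_le (n : ℕ) (hn : Algebra.trdeg ℂ K = n) (B : Subalgebra ℂ K)
    (V : ValuationSubring K)
    (hcl : IsIntegrallyClosedIn B K) (hnoeth : IsNoetherianRing B)
    (hfrac : ∀ z : K, ∃ u ∈ B, ∃ v ∈ B, v ≠ 0 ∧ z = u / v)
    (hc : ∀ c : ℂ, algebraMap ℂ K c ∈ V) (hB : ∀ z ∈ B, z ∈ V) (hloc : ¬ IsLocOf V B)
    {κ : Type} [Field κ] [Algebra ℂ κ] (ρ : toSub V hc →ₐ[ℂ] κ)
    (hρ : ∀ z : toSub V hc, ρ z = 0 ↔ ¬ IsUnitOf V (z : K)) {ι : Type} [Fintype ι] (b : ι → B)
    (hb : AlgebraicIndependent ℂ fun i => ρ (incl V hc B hB (b i))) :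
    Fintype.card ι + 2 ≤ n := by
  obtain ⟨Q, hQp, hQ0, hQu, d, hdQ, hdu⟩ := exists_prime B V hcl hnoeth hfrac hc hB hloc
  set ψ : B →ₐ[ℂ] κ := ρ.comp (incl V hc B hB) with hψ
  have hψ0 : ∀ b : B, ψ b = 0 ↔ ¬ IsUnitOf V (b : K) := fun b => hρ (incl V hc B hB b)
  let φ₁ : (B ⧸ Q) →ₐ[ℂ] κ := Ideal.Quotient.liftₐ Q ψ fun b hb => (hψ0 b).2 (hQu b hb)
  let φ₂ : B →ₐ[ℂ] (B ⧸ Q) := Ideal.Quotient.mkₐ ℂ Q
  have hφ₂ : ∀ b : B, φ₂ b = 0 ↔ b ∈ Q := fun b => Ideal.Quotient.eq_zero_iff_mem
  have h1 : AlgebraicIndependent ℂ fun o : Option ι => o.elim (φ₂ d) fun i => φ₂ (b i) := by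
    apply algInd_option φ₁
    · exact hb
    · rw [Ne, hφ₂]; exact hdQ
    · exact (hψ0 d).2 hdu
  obtain ⟨c, hcQ, hc0⟩ := Submodule.exists_mem_ne_zero_of_ne_bot hQ0
  have h2 : AlgebraicIndependent ℂ fun o : Option (Option ι) =>
      o.elim c fun o' : Option ι => o'.elim d b := by
    apply algInd_option φ₂
    · convert h1 using 1
      funext o
      cases o <;> rfl
    · exact hc0
    · rw [hφ₂]; exact hcQ
  have h3 : AlgebraicIndependent ℂ (B.val ∘ fun o : Option (Option ι) =>
      o.elim c fun o' : Option ι => o'.elim d b) := h2.map' Subtype.val_injective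
  have h4 := card_le_of_algInd h3 hn.le
  rwa [Fintype.card_option, Fintype.card_option] at h4

end

end Pool.Agent.MPad0563
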