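import Pool.Agent.Work.MP_ad0563_ag.Interface

/-!
Block V6, and the residue field of a valuation ring containing `ℂ`.
-/

set_option linter.unusedSectionVars false

namespace Pool.Agent.MPad0563

variable {K : Type} [Field K] [Algebra ℂ K]

/-- A valuation ring containing `ℂ`, as a subalgebra. -/
def toSub (V : ValuationSubring K) (hc : ∀ c : ℂ, algebraMap ℂ K c ∈ V) : Subalgebra ℂ K :=
  { V.toSubring with algebraMap_mem' := hc }

lemma mem_toSub {V : ValuationSubring K} {hc : ∀ c : ℂ, algebraMap ℂ K c ∈ V} {z : K} :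
    z ∈ toSub V hc ↔ z ∈ V := Iff.rfl

lemma isUnit_iff_isUnitOf {V : ValuationSubring K} (z : V) : IsUnit z ↔ IsUnitOf V (z : K) := by
  constructor
  · rintro ⟨w, rfl⟩
    have h1 : ((w : V) : K) * (((w⁻¹ : Vˣ) : V) : K) = 1 := by
      rw [← V.coe_mul, Units.mul_inv]; rfl
    refine ⟨left_ne_zero_of_mul_eq_one h1, (w : V).2, ?_⟩
    rw [inv_eq_of_mul_eq_one_right h1]
    exact ((w⁻¹ : Vˣ) : V).2
  · rintro ⟨h0, h1, h2⟩
    apply IsUnit.of_mul_eq_one (⟨(z : K)⁻¹, h2⟩ : V)
    apply Subtype.ext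
    exact mul_inv_cancel₀ h0

/-- The residue field as a `ℂ`-algebra. -/
lemma exists_residue (V : ValuationSubring K) (hc : ∀ c : ℂ, algebraMap ℂ K c ∈ V) :
    ∃ (κ : Type) (_ : Field κ) (_ : Algebra ℂ κ) (ρ : toSub V hc →ₐ[ℂ] κ),
      Function.Surjective ρ ∧ ∀ z : toSub V hc, ρ z = 0 ↔ ¬ IsUnitOf V (z : K) := by
  let ι : ℂ →+* V := (algebraMap ℂ K).codRestrict V.toSubring hc
  let _ : Algebra ℂ (IsLocalRing.ResidueField V) := ((IsLocalRing.residue V).comp ι).toAlgebra
  let ρ : toSub V hc →ₐ[ℂ] IsLocalRing.ResidueField V :=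
    { toFun := fun z => IsLocalRing.residue V ⟨z.1, z.2⟩
      map_one' := map_one _
      map_mul' := fun x y => map_mul (IsLocalRing.residue V) ⟨x.1, x.2⟩ ⟨y.1, y.2⟩
      map_zero' := map_zero _
      map_add' := fun x y => map_add (IsLocalRing.residue V) ⟨x.1, x.2⟩ ⟨y.1, y.2⟩
      commutes' := fun c => rfl }
  refine ⟨IsLocalRing.ResidueField V, inferInstance, inferInstance, ρ, ?_, ?_⟩
  · intro x
    obtain ⟨z, rfl⟩ := IsLocalRing.residue_surjective x
    exact ⟨⟨z.1, z.2⟩, rfl⟩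
  · intro z
    show IsLocalRing.residue V ⟨z.1, z.2⟩ = 0 ↔ _
    rw [IsLocalRing.residue_eq_zero_iff, IsLocalRing.mem_maximalIdeal, mem_nonunits_iff,
      isUnit_iff_isUnitOf]

/-- The residues of the elements of a transcendence basis. -/
lemma algInd_residue {V : ValuationSubring K} {hc : ∀ c : ℂ, algebraMap ℂ K c ∈ V}
    {κ : Type} [Field κ] [Algebra ℂ κ] (ρ : toSub V hc →ₐ[ℂ] κ)
    (hρ : ∀ z : toSub V hc, ρ z = 0 ↔ ¬ IsUnitOf V (z : K)) {ι : Type} (u : ι → toSub V hc)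
    (hu : ∀ P : MvPolynomial ι ℂ, P ≠ 0 → IsUnitOf V (MvPolynomial.aeval (fun i => (u i : K)) P)) :
    AlgebraicIndependent ℂ fun i => ρ (u i) := by
  rw [algebraicIndependent_iff]
  intro P hP
  by_contra hP0
  have h1 := hu P hP0
  have h2 : (MvPolynomial.aeval (fun i => (u i : K)) P) =
      ((MvPolynomial.aeval u P : toSub V hc) : K) := by
    rw [show ((MvPolynomial.aeval u P : toSub V hc) : K) =
      (toSub V hc).val (MvPolynomial.aeval u P) from rfl, MvPolynomial.comp_aeval_apply]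
    rfl
  have h3 : ρ (MvPolynomial.aeval u P) = 0 := by
    rw [MvPolynomial.comp_aeval_apply]
    exact hP
  rw [hρ] at h3
  rw [h2] at h1
  exact h3 h1

/-- Algebraically independent elements are at most `trdeg` many. -/
lemma card_le_of_algInd {κ : Type} [Field κ] [Algebra ℂ κ] {ι : Type} [Fintype ι] {x : ι → κ}
    (hx : AlgebraicIndependent ℂ x) {m : ℕ} (hm : Algebra.trdeg ℂ κ ≤ m) :
    Fintype.card ι ≤ m := by
  have h1 := hx.cardinalMk_le_trdeg.trans hm
  rw [Cardinal.mk_fintype] at h1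
  exact_mod_cast h1

theorem stmt_V6 : Stmt_V6 := by
  intro K _ _ n V hV hn A w hw hAV hA hloc
  obtain ⟨κ, _, _, ρ, hsurj, hρ⟩ := exists_residue V hV.const
  obtain ⟨u, hu⟩ := hV.residue
  have huV : ∀ i, u i ∈ V := by
    intro i
    have := hu (MvPolynomial.X i) (MvPolynomial.X_ne_zero i)
    rw [MvPolynomial.aeval_X] at this
    exact this.2.1
  have hind : AlgebraicIndependent ℂ fun i => ρ ⟨u i, huV i⟩ :=
    algInd_residue ρ hρ (fun i => ⟨u i, huV i⟩) hu
  set w' : κ := ρ ⟨w, hw⟩ with hw'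
  -- residues of elements of `A` are polynomials in `w'`
  have hres : ∀ (a : K) (ha : a ∈ A), ∃ P : Polynomial ℂ,
      ρ ⟨a, hAV a ha⟩ = Polynomial.aeval w' P := by
    intro a ha
    obtain ⟨P, hP⟩ := hA a ha
    refine ⟨P, ?_⟩
    have h1 : ρ (⟨a, hAV a ha⟩ - Polynomial.aeval (⟨w, hw⟩ : toSub V hV.const) P) = 0 := by
      rw [hρ]
      have h2 : ((⟨a, hAV a ha⟩ - Polynomial.aeval (⟨w, hw⟩ : toSub V hV.const) P :
          toSub V hV.const) : K) = a - Polynomial.aeval w P := by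
        have h3 : ((Polynomial.aeval (⟨w, hw⟩ : toSub V hV.const) P : toSub V hV.const) : K) =
            Polynomial.aeval w P := by
          rw [show ((Polynomial.aeval (⟨w, hw⟩ : toSub V hV.const) P : toSub V hV.const) : K) =
            (toSub V hV.const).val (Polynomial.aeval (⟨w, hw⟩ : toSub V hV.const) P) from rfl,
            ← Polynomial.aeval_algHom_apply]
          rfl
        rw [← h3]
        rfl
      rw [h2]
      exact hP
    rw [map_sub, sub_eq_zero, ← Polynomial.aeval_algHom_apply] at h1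
    exact h1
  have halg : Algebra.IsAlgebraic (Algebra.adjoin ℂ ({w'} : Set κ)) κ := by
    have hmem : ∀ P : Polynomial ℂ, Polynomial.aeval w' P ∈ Algebra.adjoin ℂ ({w'} : Set κ) :=
      fun P => Polynomial.aeval_mem_adjoin_singleton _ _
    constructor
    intro x
    obtain ⟨z, rfl⟩ := hsurj x
    obtain ⟨a, ha, b, hb, hb0, hbV, hz⟩ := hloc z.1 z.2
    obtain ⟨P, hP⟩ := hres a ha
    obtain ⟨Q, hQ⟩ := hres b hb
    have h1 : ρ z * Polynomial.aeval w' Q = Polynomial.aeval w' P := by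
      rw [← hP, ← hQ, ← map_mul]
      congr 1
      apply Subtype.ext
      show z.1 * b = a
      rw [hz, div_mul_cancel₀ _ hb0]
    have hQ0 : Polynomial.aeval w' Q ≠ 0 := by
      rw [← hQ]
      intro h2
      rw [hρ] at h2
      exact h2 ⟨hb0, hAV b hb, hbV⟩
    have h3 : IsAlgebraic (Algebra.adjoin ℂ ({w'} : Set κ)) (Polynomial.aeval w' P) :=
      isAlgebraic_algebraMap (⟨_, hmem P⟩ : Algebra.adjoin ℂ ({w'} : Set κ))
    have h4 : IsAlgebraic (Algebra.adjoin ℂ ({w'} : Set κ)) (Polynomial.aeval w' Q) :=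
      isAlgebraic_algebraMap (⟨_, hmem Q⟩ : Algebra.adjoin ℂ ({w'} : Set κ))
    have h5 : ρ z = Polynomial.aeval w' P * (Polynomial.aeval w' Q)⁻¹ := by
      rw [← h1, mul_assoc, mul_inv_cancel₀ hQ0, mul_one]
    rw [h5]
    exact h3.mul h4.inv
  have htr : Algebra.trdeg ℂ κ ≤ (1 : ℕ) := by
    have := Algebra.IsAlgebraic.trdeg_le_cardinalMk ℂ ({w'} : Set κ)
    simpa using this
  have := card_le_of_algInd hind htr
  rw [Fintype.card_fin] at this
  omega

end Pool.Agent.MPad0563
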